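import Pool.Agent.Helper80K5.Eval

/-!
# The easy sets of gates
-/

namespace Pool.Agent.Helper80K5

open Pool.Agent.NPC Pool.Agent.Helper80K4

variable {B : Basis}

theorem Valid.vg {C : BCircuit} (h : C.Valid B) : VG B C.inputs C.gates := h.1

theorem nodes_eq (C : BCircuit) (x : List Bool) : C.nodes B x = brun B C.gates x := rfl

theorem eval_length (C : BCircuit) (x : List Bool) : (C.eval B x).length = C.outputs.length := by
  unfold BCircuit.eval; simp

theorem eval_getD (C : BCircuit) (x : List Bool) {j : ℕ} (hj : j < C.outputs.length) :
    (C.eval B x).getD j false = (brun B C.gates x).getD (C.outputs.getD j 0) false := by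
  unfold BCircuit.eval
  rw [getD_map_lt _ _ hj 0, nodes_eq]

theorem cost_mono {y y' : List Bool} (hl : y.length = y'.length)
    (h : ∀ i, y.getD i false = true → y'.getD i false = true) : cost y ≤ cost y' := by
  unfold cost
  rw [hl]
  refine Finset.sum_le_sum fun j _ => Nat.mul_le_mul_right _ ?_
  have := h j
  cases h1 : y.getD j false
  · simp
  · rw [this h1]

/-! ### Monotone and zero-preserving gates -/

theorem mono_nodes (hB : B.Mono) {k : ℕ} {gs : List (ℕ × List ℕ)} (hC : VG B k gs)
    {x y : List Bool} (hx : x.length = k) (hy : y.length = k)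
    (h : ∀ i, x.getD i false = true → y.getD i false = true) (j : ℕ)
    (hj : (brun B gs x).getD j false = true) : (brun B gs y).getD j false = true := by
  induction j using Nat.strong_induction_on with
  | _ j ih =>
  by_cases hjn : j < k
  · rw [brun_getD_lt (by omega)] at hj ⊢
    exact h j hj
  · obtain ⟨i, rfl⟩ : ∃ i, j = k + i := ⟨j - k, by omega⟩
    by_cases hi : i < gs.length
    · have hig : gs[i]? = some gs[i] := List.getElem?_eq_getElem hi
      obtain ⟨h1, h2, h3⟩ := hC i _ hig
      rw [brun_getD_gate hC hx hig] at hj
      rw [brun_getD_gate hC hy hig]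
      unfold gval at hj ⊢
      have hmem : B.getD gs[i].1 (0, []) ∈ B := by
        rw [List.getD_eq_getElem _ _ h1]
        exact List.getElem_mem _
      refine hB _ hmem _ _ (by rw [List.length_map, h2]) (by rw [List.length_map, h2]) ?_ hj
      intro q hq
      by_cases hql : q < gs[i].2.length
      · rw [getD_map_lt _ _ hql 0] at hq ⊢
        have h4 : gs[i].2.getD q 0 < k + i := by
          rw [List.getD_eq_getElem _ _ hql]
          exact h3 _ (List.getElem_mem _)
        exact ih _ h4 hq
      · rw [List.getD_eq_default _ _ (by simpa using hql)] at hq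
        exact absurd hq (by simp)
    · rw [List.getD_eq_default _ _ (by rw [brun_length]; omega)] at hj
      exact absurd hj (by simp)

theorem zero_nodes (hB : B.Zero) {k : ℕ} {gs : List (ℕ × List ℕ)} (hC : VG B k gs) (j : ℕ) :
    (brun B gs (List.replicate k false)).getD j false = false := by
  induction j using Nat.strong_induction_on with
  | _ j ih =>
  by_cases hjn : j < k
  · rw [brun_getD_lt (by simpa using hjn), List.getD_eq_getElem _ _ (by simpa using hjn)]
    simp
  · obtain ⟨i, rfl⟩ : ∃ i, j = k + i := ⟨j - k, by omega⟩
    by_cases hi : i < gs.length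
    · have hig : gs[i]? = some gs[i] := List.getElem?_eq_getElem hi
      obtain ⟨h1, h2, h3⟩ := hC i _ hig
      rw [brun_getD_gate hC (by simp) hig]
      unfold gval
      have hmem : B.getD gs[i].1 (0, []) ∈ B := by
        rw [List.getD_eq_getElem _ _ h1]
        exact List.getElem_mem _
      have e : (gs[i].2.map fun a => (brun B gs (List.replicate k false)).getD a false) =
          List.replicate (B.getD gs[i].1 (0, [])).1 false := by
        rw [← h2, List.eq_replicate_iff]
        refine ⟨by simp, fun b hb => ?_⟩
        obtain ⟨a, ha, rfl⟩ := List.mem_map.1 hb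
        exact ih a (h3 a ha)
      rw [e]
      exact hB _ hmem
    · rw [List.getD_eq_default _ _ (by rw [brun_length]; simp; omega)]

/-- the zero vector -/
def solve0 (c : BData) : List Bool := (List.range c.1.length).map fun _ => false

theorem poly_solve0 : Poly solve0 := by
  unfold solve0
  exact NPC.Poly.map (F := fun _ _ => false) (UPoly.length (by fun_prop)).range
    (NPC.Poly.const _)

theorem solve0_eq (C : BCircuit) : solve0 (bdata C) = List.replicate C.inputs false := by
  unfold solve0 bdata
  rw [List.eq_replicate_iff]
  refine ⟨by simp, fun b hb => ?_⟩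
  obtain ⟨_, _, rfl⟩ := List.mem_map.1 hb
  rfl

theorem easy_zero (hB : B.Zero) : BFlip B := by
  refine solvable_of_poly toT_bdata poly_solve0 fun C hC => ?_
  rw [solve0_eq]
  refine ⟨by simp, fun i _ => cost_mono (by rw [eval_length, eval_length]) fun j hj => ?_⟩
  exfalso
  by_cases hjl : j < C.outputs.length
  · rw [eval_getD _ _ hjl, zero_nodes hB hC.1] at hj
    exact absurd hj (by simp)
  · rw [List.getD_eq_default _ _ (by rw [eval_length]; omega)] at hj
    exact absurd hj (by simp)

theorem easy_mono (hB : B.Mono) : BFlip B := by
  refine solvable_of_poly toT_bdata poly_solve0 fun C hC => ?_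
  rw [solve0_eq]
  refine ⟨by simp, fun i _ => cost_mono (by rw [eval_length, eval_length]) fun j hj => ?_⟩
  by_cases hjl : j < C.outputs.length
  · rw [eval_getD _ _ hjl] at hj ⊢
    refine mono_nodes hB hC.1 (by simp) (by simp) ?_ _ hj
    intro q hq
    exfalso
    by_cases hqk : q < C.inputs
    · rw [List.getD_eq_getElem _ _ (by simpa using hqk)] at hq
      simp at hq
    · rw [List.getD_eq_default _ _ (by simpa using hqk)] at hq
      exact absurd hq (by simp)
  · rw [List.getD_eq_default _ _ (by rw [eval_length]; omega)] at hj
    exact absurd hj (by simp)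

/-! ### Affine gates -/

theorem xor_key : ∀ x p q p' q' A A' A2 A3 : Bool, (p ^^ q) = (p' ^^ q') →
    (A ^^ A') = (A2 ^^ A3) →
    (((x && p) ^^ A) ^^ ((x && q) ^^ A')) = (((x && p') ^^ A2) ^^ ((x && q') ^^ A3)) := by
  decide

theorem par_congr (c : Bool) : ∀ a u v : List Bool, u.length = v.length →
    ∀ u' v' : List Bool, u'.length = v'.length → u.length = u'.length →
    (∀ i, (u.getD i false ^^ v.getD i false) = (u'.getD i false ^^ v'.getD i false)) →
    (par c a u ^^ par c a v) = (par c a u' ^^ par c a v')
  | [], u, v, _, u', v', _, _, _ => by simp [par]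
  | _ :: _, [], [], _, [], [], _, _, _ => by simp [par]
  | x :: a, p :: u, q :: v, h1, p' :: u', q' :: v', h2, h3, h => by
    have h0 := h 0
    simp only [List.getD_cons_zero] at h0
    have ih := par_congr c a u v (by simpa using h1) u' v' (by simpa using h2)
      (by simpa using h3) (fun i => by
        have := h (i + 1)
        simpa only [List.getD_cons_succ] using this)
    unfold par at ih ⊢
    simp only [List.zip_cons_cons, List.foldr_cons]
    exact xor_key _ _ _ _ _ _ _ _ _ h0 ih
  | _ :: _, [], _ :: _, h1, _, _, _, _, _ => by simp at h1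
  | _ :: _, _ :: _, [], h1, _, _, _, _, _ => by simp at h1
  | _ :: _, [], [], _, _ :: _, _, _, h3, _ => by simp at h3
  | _ :: _, _ :: _, _ :: _, _, [], _, _, h3, _ => by simp at h3
  | _ :: _, _, _, _, [], _ :: _, h2, _, _ => by simp at h2
  | _ :: _, _, _, _, _ :: _, [], h2, _, _ => by simp at h2

/-- The effect of a flip does not depend on the vector. -/
theorem affine_nodes (hB : B.Affine) {k : ℕ} {gs : List (ℕ × List ℕ)} (hC : VG B k gs)
    {x y x' y' : List Bool} (hx : x.length = k) (hy : y.length = k) (hx' : x'.length = k)
    (hy' : y'.length = k)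
    (h : ∀ i, (x.getD i false ^^ y.getD i false) = (x'.getD i false ^^ y'.getD i false)) (j : ℕ) :
    ((brun B gs x).getD j false ^^ (brun B gs y).getD j false) =
      ((brun B gs x').getD j false ^^ (brun B gs y').getD j false) := by
  induction j using Nat.strong_induction_on with
  | _ j ih =>
  by_cases hjn : j < k
  · rw [brun_getD_lt (by omega), brun_getD_lt (by omega), brun_getD_lt (by omega),
      brun_getD_lt (by omega)]
    exact h j
  · obtain ⟨i, rfl⟩ : ∃ i, j = k + i := ⟨j - k, by omega⟩
    by_cases hi : i < gs.length
    · have hig : gs[i]? = some gs[i] := List.getElem?_eq_getElem hi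
      obtain ⟨h1, h2, h3⟩ := hC i _ hig
      rw [brun_getD_gate hC hx hig, brun_getD_gate hC hy hig, brun_getD_gate hC hx' hig,
        brun_getD_gate hC hy' hig]
      unfold gval
      have hmem : B.getD gs[i].1 (0, []) ∈ B := by
        rw [List.getD_eq_getElem _ _ h1]
        exact List.getElem_mem _
      obtain ⟨c, a, hca⟩ := hB _ hmem
      rw [hca _ (by rw [List.length_map, h2]), hca _ (by rw [List.length_map, h2]),
        hca _ (by rw [List.length_map, h2]), hca _ (by rw [List.length_map, h2])]
      refine par_congr c a _ _ (by simp) _ _ (by simp) (by simp) fun q => ?_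
      by_cases hql : q < gs[i].2.length
      · rw [getD_map_lt _ _ hql 0, getD_map_lt _ _ hql 0, getD_map_lt _ _ hql 0,
          getD_map_lt _ _ hql 0]
        have h4 : gs[i].2.getD q 0 < k + i := by
          rw [List.getD_eq_getElem _ _ hql]
          exact h3 _ (List.getElem_mem _)
        exact ih _ h4
      · rw [List.getD_eq_default _ _ (by simpa using hql),
          List.getD_eq_default _ _ (by simpa using hql),
          List.getD_eq_default _ _ (by simpa using hql),
          List.getD_eq_default _ _ (by simpa using hql)]
    · rw [List.getD_eq_default _ _ (by rw [brun_length]; omega),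
        List.getD_eq_default _ _ (by rw [brun_length]; omega),
        List.getD_eq_default _ _ (by rw [brun_length]; omega),
        List.getD_eq_default _ _ (by rw [brun_length]; omega)]

/-- the flip number `i` clears the output bit `t` and does not change more significant bits -/
def good (ev : List Bool → List Bool) (x : List Bool) (t i : ℕ) : Bool :=
  decide ((ev (x.modify i not)).drop (t + 1) = (ev x).drop (t + 1)) &&
    (ev x).getD t false && !((ev (x.modify i not)).getD t false)

/-- clear the output bit `t` if possible -/
def clear (ev : List Bool → List Bool) (n : ℕ) (x : List Bool) (t : ℕ) : List Bool :=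
  match ((List.range n).filter (good ev x t)).head? with
  | none => x
  | some i => x.modify i not

/-- the algorithm -/
def solveA (B : Basis) (c : BData) : List Bool :=
  ((List.range c.2.2.length).reverse).foldl
    (clear (fun x => c.2.2.map fun o => (brun B c.2.1 x).getD o false) c.1.length)
    (solve0 c)

theorem clear_length (ev : List Bool → List Bool) (n : ℕ) (x : List Bool) (t : ℕ) :
    (clear ev n x t).length = x.length := by
  unfold clear
  cases ((List.range n).filter (good ev x t)).head? <;> simp

/-- Effects of flips. -/
def Lin (n : ℕ) (ev : List Bool → List Bool) : Prop :=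
  ∀ x y : List Bool, x.length = n → y.length = n → ∀ i < n, ∀ j,
    ((ev (x.modify i not)).getD j false ^^ (ev x).getD j false) =
      ((ev (y.modify i not)).getD j false ^^ (ev y).getD j false)

theorem lin_eval (hB : B.Affine) {C : BCircuit} (hC : C.Valid B) : Lin C.inputs (C.eval B) := by
  intro x y hx hy i hi j
  by_cases hj : j < C.outputs.length
  · rw [eval_getD _ _ hj, eval_getD _ _ hj, eval_getD _ _ hj, eval_getD _ _ hj]
    refine affine_nodes hB hC.1 (by simpa using hx) hx (by simpa using hy) hy (fun q => ?_) _
    rw [getD_modify (by omega), getD_modify (by omega)]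
    split_ifs with h
    · cases x.getD q false <;> cases y.getD q false <;> rfl
    · cases x.getD q false <;> cases y.getD q false <;> rfl
  · rw [List.getD_eq_default _ _ (by rw [eval_length]; omega),
      List.getD_eq_default _ _ (by rw [eval_length]; omega),
      List.getD_eq_default _ _ (by rw [eval_length]; omega),
      List.getD_eq_default _ _ (by rw [eval_length]; omega)]

theorem drop_eq_iff {m : ℕ} {l l' : List Bool} (hl : l.length = m) (hl' : l'.length = m) (t : ℕ) :
    l.drop t = l'.drop t ↔ ∀ j, t ≤ j → l.getD j false = l'.getD j false := by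
  constructor
  · intro h j hj
    have := congrArg (fun l => l.getD (j - t) false) h
    simp only [List.getD_eq_getElem?_getD, List.getElem?_drop] at this
    rw [show t + (j - t) = j by omega] at this
    simpa only [List.getD_eq_getElem?_getD] using this
  · intro h
    refine List.ext_getElem (by simp [hl, hl']) fun j h1 h2 => ?_
    rw [List.getElem_drop, List.getElem_drop]
    have h3 : t + j < l.length := by rw [List.length_drop] at h1; omega
    have := h (t + j) (by omega)
    rwa [List.getD_eq_getElem _ _ h3, List.getD_eq_getElem _ _ (by omega)] at this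

section

variable {n m : ℕ} {ev : List Bool → List Bool} (hL : Lin n ev)
  (hev : ∀ x, (ev x).length = m)

include hev

theorem good_iff {x : List Bool} {t i : ℕ} : good ev x t i = true ↔
    (∀ j, t < j → (ev (x.modify i not)).getD j false = (ev x).getD j false) ∧
      (ev x).getD t false = true ∧ (ev (x.modify i not)).getD t false = false := by
  unfold good
  rw [Bool.and_eq_true, Bool.and_eq_true, decide_eq_true_eq, drop_eq_iff (hev _) (hev _),
    Bool.not_eq_true', and_assoc]
  rfl

omit hev in
/-- what `clear` does -/
theorem clear_spec (x : List Bool) (t : ℕ) :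
    (clear ev n x t = x ∧ ∀ i < n, good ev x t i = false) ∨
    ∃ i < n, clear ev n x t = x.modify i not ∧ good ev x t i = true := by
  unfold clear
  cases h : ((List.range n).filter (good ev x t)).head? with
  | none =>
    left
    refine ⟨rfl, fun i hi => ?_⟩
    rw [List.head?_eq_none_iff, List.filter_eq_nil_iff] at h
    simpa using h i (List.mem_range.2 hi)
  | some i =>
    right
    have := List.mem_of_head? h
    obtain ⟨h1, h2⟩ := List.mem_filter.1 this
    exact ⟨i, List.mem_range.1 h1, rfl, h2⟩

/-- `clear` keeps the more significant bits -/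
theorem clear_above (x : List Bool) (t j : ℕ) (hj : t < j) :
    (ev (clear ev n x t)).getD j false = (ev x).getD j false := by
  rcases clear_spec (n := n) (ev := ev) x t with ⟨h, _⟩ | ⟨i, _, h, h'⟩
  · rw [h]
  · rw [h]
    exact ((good_iff hev).1 h').1 j hj

/-- the bit `t` is the leading bit of the effect of the flip `i` -/
def Lead (n : ℕ) (ev : List Bool → List Bool) (t i : ℕ) : Prop :=
  ∀ x : List Bool, x.length = n → (∀ j, t < j → (ev (x.modify i not)).getD j false =
    (ev x).getD j false) ∧ (ev (x.modify i not)).getD t false = !((ev x).getD t false)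

/-- `clear` clears a leading bit -/
theorem clear_lead {x : List Bool} (hx : x.length = n) {t i : ℕ} (hi : i < n)
    (hl : Lead n ev t i) : (ev (clear ev n x t)).getD t false = false := by
  rcases clear_spec (n := n) (ev := ev) x t with ⟨h, h'⟩ | ⟨i', _, h, h'⟩
  · rw [h]
    by_contra hcon
    rw [Bool.not_eq_false] at hcon
    have h1 := h' i hi
    rw [← Bool.not_eq_true, good_iff hev] at h1
    obtain ⟨h2, h3⟩ := hl x hx
    exact h1 ⟨h2, hcon, by rw [h3, hcon]; rfl⟩
  · rw [h]
    exact ((good_iff hev).1 h').2.2

theorem fold_spec (l : List ℕ) (hl : l.Pairwise (fun a b => b < a)) (x : List Bool)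
    (hx : x.length = n) :
    (l.foldl (clear ev n) x).length = n ∧
    (∀ j, (∀ t ∈ l, t < j) → (ev (l.foldl (clear ev n) x)).getD j false = (ev x).getD j false) ∧
    ∀ t ∈ l, ∀ i < n, Lead n ev t i → (ev (l.foldl (clear ev n) x)).getD t false = false := by
  induction l generalizing x with
  | nil => exact ⟨hx, fun _ _ => rfl, by simp⟩
  | cons t l ih =>
    obtain ⟨h1, h2⟩ := List.pairwise_cons.1 hl
    obtain ⟨i1, i2, i3⟩ := ih h2 (clear ev n x t) (by rw [clear_length, hx])
    rw [List.foldl_cons]
    refine ⟨i1, fun j hj => ?_, fun t' ht' i hi hL => ?_⟩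
    · rw [i2 j fun t' ht' => hj t' (List.mem_cons_of_mem _ ht')]
      exact clear_above hev x t j (hj t List.mem_cons_self)
    · rcases List.mem_cons.1 ht' with rfl | ht'
      · rw [i2 t' fun s hs => h1 s hs]
        exact clear_lead hev hx hi hL
      · exact i3 t' ht' i hi hL

include hL

/-- The result is a local minimum. -/
theorem lin_min (x : List Bool) (hx : x.length = n) :
    IsLocalMin n ev (((List.range m).reverse).foldl (clear ev n) x) := by
  have hp : ((List.range m).reverse).Pairwise (fun a b => b < a) := by
    rw [List.pairwise_reverse]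
    exact List.pairwise_lt_range
  obtain ⟨h1, _, h3⟩ := fold_spec (n := n) hev _ hp x hx
  refine ⟨h1, fun i hi => ?_⟩
  obtain ⟨X, hX⟩ : ∃ X, X = ((List.range m).reverse).foldl (clear ev n) x := ⟨_, rfl⟩
  rw [← hX] at h1 h3 ⊢
  -- the leading bit of the flip
  by_cases hne : ∃ t, t < m ∧ (ev (X.modify i not)).getD t false ≠ (ev X).getD t false
  · classical
    -- the greatest such bit
    obtain ⟨t, ⟨htm, ht⟩, hmax⟩ : ∃ t, (t < m ∧ (ev (X.modify i not)).getD t false ≠
        (ev X).getD t false) ∧ ∀ j, t < j → ¬ (j < m ∧ (ev (X.modify i not)).getD j false ≠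
        (ev X).getD j false) := by
      obtain ⟨t0, ht0⟩ := hne
      have hb : ∀ j, (j < m ∧ (ev (X.modify i not)).getD j false ≠ (ev X).getD j false) → j ≤ m :=
        fun j hj => hj.1.le
      refine ⟨Nat.findGreatest (fun j => j < m ∧ (ev (X.modify i not)).getD j false ≠
        (ev X).getD j false) m, Nat.findGreatest_spec (P := fun j => j < m ∧
          (ev (X.modify i not)).getD j false ≠ (ev X).getD j false) (hb t0 ht0) ht0, ?_⟩
      intro j hj hj'
      have := Nat.le_findGreatest (P := fun j => j < m ∧
          (ev (X.modify i not)).getD j false ≠ (ev X).getD j false) (hb j hj') hj'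
      omega
    have hsame : ∀ j, t < j → (ev (X.modify i not)).getD j false = (ev X).getD j false := by
      intro j hj
      by_cases hjm : j < m
      · by_contra hcon
        exact hmax j hj ⟨hjm, hcon⟩
      · rw [List.getD_eq_default _ _ (by rw [hev]; omega),
          List.getD_eq_default _ _ (by rw [hev]; omega)]
    have hlead : Lead n ev t i := by
      intro y hy
      refine ⟨fun j hj => ?_, ?_⟩
      · have h4 := hL y X hy h1 i hi j
        rw [hsame j hj] at h4
        revert h4
        cases (ev (y.modify i not)).getD j false <;> cases (ev y).getD j false <;>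
          cases (ev X).getD j false <;> simp
      · have h4 := hL y X hy h1 i hi t
        revert h4 ht
        cases (ev (y.modify i not)).getD t false <;> cases (ev y).getD t false <;>
          cases (ev X).getD t false <;> cases (ev (X.modify i not)).getD t false <;> simp
    have h5 := h3 t (List.mem_reverse.2 (List.mem_range.2 htm)) i hi hlead
    have h6 : (ev (X.modify i not)).getD t false = true := by
      rw [h5] at ht
      cases h7 : (ev (X.modify i not)).getD t false
      · rw [h7] at ht; exact absurd rfl ht
      · rfl
    -- compare the costs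
    have hsum : ∀ y : List Bool, y.length = m → cost y =
        pc y (t + 1) + ∑ j ∈ Finset.Ico (t + 1) m, (y.getD j false).toNat * 2 ^ (j + 1) := by
      intro y hy
      unfold cost pc
      rw [hy, Finset.range_eq_Ico, Finset.range_eq_Ico,
        Finset.sum_Ico_consecutive _ (Nat.zero_le _) (by omega : t + 1 ≤ m)]
    rw [hsum _ (hev _), hsum _ (hev _)]
    have e1 : ∑ j ∈ Finset.Ico (t + 1) m, ((ev (X.modify i not)).getD j false).toNat * 2 ^ (j + 1) =
        ∑ j ∈ Finset.Ico (t + 1) m, ((ev X).getD j false).toNat * 2 ^ (j + 1) := by
      refine Finset.sum_congr rfl fun j hj => ?_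
      have := (Finset.mem_Ico.1 hj).1
      rw [hsame j (by omega)]
    rw [e1]
    have e2 : pc (ev X) (t + 1) = pc (ev X) t := by
      rw [pc_succ, h5]; simp
    have e3 : pc (ev (X.modify i not)) (t + 1) = pc (ev (X.modify i not)) t + 2 ^ (t + 1) := by
      rw [pc_succ, h6]; simp
    have e4 := pc_lt (ev X) t
    omega
  · push Not at hne
    refine le_of_eq ?_
    congr 1
    refine List.ext_getElem (by rw [hev, hev]) fun j h4 h5 => ?_
    have := hne j (by rw [hev] at h4; exact h4)
    rw [List.getD_eq_getElem _ _ h5, List.getD_eq_getElem _ _ h4] at this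
    exact this.symm

end

section

variable {α : Type} [TEnc α]

theorem poly_modify {x : α → List Bool} {i : α → ℕ} (hx : Poly x) (hi : Poly i) :
    Poly (fun a => (x a).modify (i a) not) := by
  have h : Poly (fun a => (x a).zipIdx.map fun p => if p.2 = i a then !p.1 else p.1) := by
    refine NPC.Poly.map (F := fun a (p : Bool × ℕ) => if p.2 = i a then !p.1 else p.1)
      (by fun_prop) ?_
    fun_prop
  refine h.congr fun a => ?_
  refine List.ext_getElem? fun j => ?_
  rw [List.getElem?_map, List.getElem?_zipIdx, List.getElem?_modify]
  cases (x a)[j]? with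
  | none => rfl
  | some b =>
    simp only [Option.map_some, Nat.zero_add, Option.map_eq_map, Option.some.injEq]
    by_cases h : j = i a
    · rw [if_pos h, if_pos h.symm]
    · rw [if_neg h, if_neg (fun h' => h h'.symm)]

theorem poly_drop {x : α → List Bool} {t : α → ℕ} (hx : Poly x) (ht : Poly t) :
    Poly (fun a => (x a).drop (t a)) := by
  have h : Poly (fun a => ((x a).zipIdx.filter fun p => decide (t a ≤ p.2)).map fun p => p.1) := by
    have h1 : Poly (fun a => (x a).zipIdx.filter fun p => decide (t a ≤ p.2)) := by
      refine Poly.filter (p := fun a (p : Bool × ℕ) => decide (t a ≤ p.2)) (by fun_prop) ?_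
      fun_prop
    exact NPC.Poly.map (F := fun _ p => p.1) h1 (by fun_prop)
  refine h.congr fun a => ?_
  have key : ∀ (l : List Bool) (k t : ℕ), ((l.zipIdx k).filter fun p => decide (t ≤ p.2)).map
      (fun p => p.1) = l.drop (t - k) := by
    intro l
    induction l with
    | nil => intro k t; simp
    | cons b l ih =>
      intro k t
      rw [List.zipIdx_cons, List.filter_cons]
      by_cases h : t ≤ k
      · rw [if_pos (by simpa using h), List.map_cons, ih (k + 1) t]
        rw [show t - (k + 1) = 0 by omega, show t - k = 0 by omega]
        simp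
      · rw [if_neg (by simpa using h), ih (k + 1) t,
          show t - k = (t - (k + 1)) + 1 by omega, List.drop_succ_cons]
  rw [key (x a) 0 (t a), Nat.sub_zero]

theorem poly_solveA (B : Basis) : Poly (solveA B) := by
  unfold solveA
  have h0 := poly_solve0
  obtain ⟨q, hq⟩ := h0.sz_le
  have hr : Poly (fun c : BData => (List.range c.2.2.length).reverse) :=
    Poly.reverse (UPoly.length (by fun_prop)).range
  refine Poly.foldl (F := fun (c : BData) x t => clear
    (fun x => c.2.2.map fun o => (brun B c.2.1 x).getD o false) c.1.length x t) hr h0 ?_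
    (Polynomial.C 4 * q + Polynomial.C 1) ?_
  · -- one step
    have hevx : Poly (fun p : (BData × List Bool × ℕ) =>
        p.1.2.2.map fun o => (brun B p.1.2.1 p.2.1).getD o false) :=
      poly_beval B (by fun_prop) (by fun_prop)
    have hm : Poly (fun p : (BData × List Bool × ℕ) × ℕ => p.1.2.1.modify p.2 not) :=
      poly_modify (by fun_prop) (by fun_prop)
    have hevm : Poly (fun p : (BData × List Bool × ℕ) × ℕ =>
        p.1.1.2.2.map fun o => (brun B p.1.1.2.1 (p.1.2.1.modify p.2 not)).getD o false) :=
      poly_beval B (c := fun p : (BData × List Bool × ℕ) × ℕ => p.1.1) (by fun_prop) hm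
    have hevx' : Poly (fun p : (BData × List Bool × ℕ) × ℕ =>
        p.1.1.2.2.map fun o => (brun B p.1.1.2.1 p.1.2.1).getD o false) :=
      hevx.comp (f := fun p : (BData × List Bool × ℕ) × ℕ => p.1) (by fun_prop)
    have hg : Poly (fun p : (BData × List Bool × ℕ) × ℕ => good
        (fun x => p.1.1.2.2.map fun o => (brun B p.1.1.2.1 x).getD o false) p.1.2.1 p.1.2.2 p.2) := by
      unfold good
      refine Poly.and (Poly.and (Poly.decide_eq (poly_drop hevm (by fun_prop))
        (poly_drop hevx' (by fun_prop))) ?_) (Poly.not ?_)
      · exact Poly.getD hevx' (by fun_prop) (NPC.Poly.const _)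
      · exact Poly.getD hevm (by fun_prop) (NPC.Poly.const _)
    have hf : Poly (fun p : BData × List Bool × ℕ => ((List.range p.1.1.length).filter
        (good (fun x => p.1.2.2.map fun o => (brun B p.1.2.1 x).getD o false) p.2.1 p.2.2)).head?) :=
      Poly.head? (Poly.filter (p := fun (p : BData × List Bool × ℕ) i => good
        (fun x => p.1.2.2.map fun o => (brun B p.1.2.1 x).getD o false) p.2.1 p.2.2 i)
        (UPoly.length (by fun_prop)).range hg)
    refine (Poly.optElim (g := fun p : BData × List Bool × ℕ => p.2.1)
      (h := fun p i => p.2.1.modify i not) hf (by fun_prop) hm).congr fun p => ?_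
    unfold clear
    cases ((List.range p.1.1.length).filter
        (good (fun x => p.1.2.2.map fun o => (brun B p.1.2.1 x).getD o false) p.2.1 p.2.2)).head? <;>
      rfl
  · intro c k _
    have hl : ∀ (l : List ℕ) (x : List Bool), (l.foldl (clear
        (fun x => c.2.2.map fun o => (brun B c.2.1 x).getD o false) c.1.length) x).length =
        x.length := by
      intro l
      induction l with
      | nil => intro x; rfl
      | cons t l ih => intro x; rw [List.foldl_cons, ih, clear_length]
    refine (sz_bools_le _).trans ?_
    have h1 := hl ((List.range c.2.2.length).reverse.take k) (solve0 c)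
    have h2 := hq c
    have h3 := length_lt_sz (solve0 c)
    simp only [Polynomial.eval_add, Polynomial.eval_mul, Polynomial.eval_C]
    have h1' : (((List.range c.2.2.length).reverse.take k).foldl (fun x t => clear
        (fun x => c.2.2.map fun o => (brun B c.2.1 x).getD o false) c.1.length x t)
        (solve0 c)).length = (solve0 c).length := h1
    rw [h1']
    omega

end

theorem easy_affine (hB : B.Affine) : BFlip B := by
  refine solvable_of_poly toT_bdata (poly_solveA B) fun C hC => ?_
  have h := lin_min (lin_eval hB hC) (fun x => eval_length C x) (solve0 (bdata C)) (by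
    rw [solve0_eq]; simp)
  have e : solveA B (bdata C) = ((List.range C.outputs.length).reverse).foldl
      (clear (C.eval B) C.inputs) (solve0 (bdata C)) := by
    unfold solveA bdata
    simp only [List.length_replicate]
    rfl
  rw [e]
  exact h

end Pool.Agent.Helper80K5
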