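import Pool.Agent.Helper80K4.Defs

/-!
# Circuit-FLIP for circuits over an arbitrary finite set of gates: definitions
-/

namespace Pool.Agent.Helper80K5

open Pool.Agent.NPC Pool.Agent.Helper80K4

/-- A Boolean function, given by its number of arguments and its truth table. -/
abbrev Fn := ℕ × List Bool

/-- The value of a Boolean function on a list of arguments. -/
def Fn.val (f : Fn) (u : List Bool) : Bool := f.2.getD (index u) false

/-- A finite set of Boolean functions (as a list). -/
abbrev Basis := List Fn

/-- The truth tables have the right lengths. -/
def Basis.Ok (B : Basis) : Prop := ∀ f ∈ B, f.2.length = 2 ^ f.1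

/-- All functions of `B` preserve 0: the value on `(0, ..., 0)` is 0. -/
def Basis.Zero (B : Basis) : Prop := ∀ f ∈ B, f.val (List.replicate f.1 false) = false

/-- All functions of `B` are monotone. -/
def Basis.Mono (B : Basis) : Prop := ∀ f ∈ B, ∀ u v : List Bool, u.length = f.1 →
  v.length = f.1 → (∀ i, u.getD i false = true → v.getD i false = true) →
  f.val u = true → f.val v = true

/-- The sum modulo 2 of `c` and the products `a_i u_i`. -/
def par (c : Bool) (a u : List Bool) : Bool := (a.zip u).foldr (fun p s => (p.1 && p.2) ^^ s) c

/-- All functions of `B` are affine. -/
def Basis.Affine (B : Basis) : Prop := ∀ f ∈ B, ∃ (c : Bool) (a : List Bool),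
  ∀ u : List Bool, u.length = f.1 → f.val u = par c a u

/-- A circuit over a set of gates. A gate is given by the number of its function in the list `B`
and the list of the nodes which it reads. The nodes are numbered: first the inputs, then the gates
in the given order. The list `outputs` gives the numbers of the output nodes. -/
structure BCircuit : Type where
  inputs : ℕ
  gates : List (ℕ × List ℕ)
  outputs : List ℕ

/-- The code of a circuit; the number of inputs is written in unary. -/
instance : TEnc BCircuit := ⟨fun C => toT (List.replicate C.inputs (), C.gates, C.outputs), by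
  rintro ⟨n, g, o⟩ ⟨n', g', o'⟩ h
  have h1 := TEnc.inj h
  simp only [Prod.mk.injEq] at h1
  have h2 := congrArg List.length h1.1
  simp only [List.length_replicate] at h2
  rw [h2, h1.2.1, h1.2.2]⟩

/-- The value of a gate if `v` lists the values of the nodes. -/
def gval (B : Basis) (v : List Bool) (g : ℕ × List ℕ) : Bool :=
  (B.getD g.1 (0, [])).val (g.2.map fun a => v.getD a false)

namespace BCircuit

variable (B : Basis) (C : BCircuit)

/-- The values of all nodes, on the input vector `x`. -/
def nodes (x : List Bool) : List Bool := C.gates.foldl (fun v g => v ++ [gval B v g]) x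

/-- The map computed by the circuit. -/
def eval (x : List Bool) : List Bool := C.outputs.map fun o => (C.nodes B x).getD o false

/-- A valid circuit over `B`: each gate is a function of `B` with the right number of arguments and
reads inputs or earlier gates, and the outputs are gates. -/
def Valid : Prop :=
  (∀ i g, C.gates[i]? = some g → g.1 < B.length ∧ g.2.length = (B.getD g.1 (0, [])).1 ∧
    ∀ a ∈ g.2, a < C.inputs + i) ∧
  ∀ o ∈ C.outputs, C.inputs ≤ o ∧ o < C.inputs + C.gates.length

end BCircuit

/-- Circuit-FLIP for circuits over `B` is solvable in polynomial time. -/
def BFlip (B : Basis) : Prop :=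
  Solvable (BCircuit.Valid B) fun C => IsLocalMin C.inputs (C.eval B)

end Pool.Agent.Helper80K5
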