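import Pool.Agent.Helper80K5.Defs
import Pool.Agent.Helper80K4.Main

/-!
# Values of circuits over a set of gates
-/

namespace Pool.Agent.Helper80K5

open Pool.Agent.NPC Pool.Agent.Helper80K4

variable {B : Basis}

/-- the values of the nodes -/
def brun (B : Basis) (gs : List (ℕ × List ℕ)) (x : List Bool) : List Bool :=
  gs.foldl (fun v g => v ++ [gval B v g]) x

theorem brun_prefix (gs : List (ℕ × List ℕ)) (x : List Bool) :
    ∃ w, brun B gs x = x ++ w ∧ w.length = gs.length := by
  unfold brun
  induction gs generalizing x with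
  | nil => exact ⟨[], by simp⟩
  | cons g gs ih =>
    obtain ⟨w, hw, hl⟩ := ih (x ++ [gval B x g])
    refine ⟨gval B x g :: w, ?_, by simp [hl]⟩
    rw [List.foldl_cons, hw]
    simp

theorem brun_length (gs : List (ℕ × List ℕ)) (x : List Bool) :
    (brun B gs x).length = x.length + gs.length := by
  obtain ⟨w, hw, hl⟩ := brun_prefix (B := B) gs x
  rw [hw, List.length_append, hl]

theorem brun_append (gs gs' : List (ℕ × List ℕ)) (x : List Bool) :
    brun B (gs ++ gs') x = brun B gs' (brun B gs x) := by
  unfold brun
  rw [List.foldl_append]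

theorem brun_getD_lt {gs : List (ℕ × List ℕ)} {x : List Bool} {j : ℕ} (hj : j < x.length) :
    (brun B gs x).getD j false = x.getD j false := by
  obtain ⟨w, hw, _⟩ := brun_prefix (B := B) gs x
  rw [hw, List.getD_append _ _ _ _ hj]

theorem gval_congr {g : ℕ × List ℕ} {v w : List Bool}
    (h : ∀ a ∈ g.2, v.getD a false = w.getD a false) : gval B v g = gval B w g := by
  unfold gval
  rw [List.map_congr_left h]

/-- valid lists of gates -/
def VG (B : Basis) (k : ℕ) (gs : List (ℕ × List ℕ)) : Prop :=
  ∀ i g, gs[i]? = some g → g.1 < B.length ∧ g.2.length = (B.getD g.1 (0, [])).1 ∧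
    ∀ a ∈ g.2, a < k + i

theorem brun_getD_gate {gs : List (ℕ × List ℕ)} {k : ℕ} (hC : VG B k gs) {x : List Bool}
    (hx : x.length = k) {i : ℕ} {g : ℕ × List ℕ} (hi : gs[i]? = some g) :
    (brun B gs x).getD (k + i) false = gval B (brun B gs x) g := by
  obtain ⟨hil, hig⟩ := List.getElem?_eq_some_iff.1 hi
  have e1 : gs = gs.take i ++ g :: gs.drop (i + 1) := by
    rw [← hig, List.getElem_cons_drop, List.take_append_drop]
  obtain ⟨A, hA⟩ : ∃ A, A = brun B (gs.take i) x := ⟨_, rfl⟩
  have hAl : A.length = k + i := by
    rw [hA, brun_length, hx, List.length_take]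
    omega
  obtain ⟨w', hw', _⟩ := brun_prefix (B := B) (gs.drop (i + 1)) (A ++ [gval B A g])
  have e2 : brun B gs x = A ++ ([gval B A g] ++ w') := by
    conv_lhs => rw [e1]
    rw [brun_append, ← hA]
    change brun B (gs.drop (i + 1)) (A ++ [gval B A g]) = _
    rw [hw', List.append_assoc]
  have e3 : gval B (brun B gs x) g = gval B A g := by
    refine gval_congr fun a ha => ?_
    have := (hC i g hi).2.2 a ha
    rw [e2, List.getD_append _ _ _ _ (by omega)]
  rw [e3, e2, ← hAl, List.getD_append_right _ _ _ _ le_rfl]
  simp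

/-- A copy of a list of gates, with renamed references, computes the values of the nodes. -/
theorem bcopy_sem {gs : List (ℕ × List ℕ)} {k : ℕ} (hC : VG B k gs) {x : List Bool}
    (hx : x.length = k) {w : ℕ → Bool} {τ : ℕ → ℕ} (h1 : ∀ j < k, w (τ j) = x.getD j false)
    (h2 : ∀ i < gs.length, w (τ (k + i)) =
      (B.getD (gs.getD i (0, [])).1 (0, [])).val ((gs.getD i (0, [])).2.map fun a => w (τ a))) :
    ∀ j < k + gs.length, w (τ j) = (brun B gs x).getD j false := by
  intro j
  induction j using Nat.strong_induction_on with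
  | _ j ih =>
  intro hj
  by_cases hjn : j < k
  · rw [h1 j hjn, brun_getD_lt (by omega)]
  · obtain ⟨i, rfl⟩ : ∃ i, j = k + i := ⟨j - k, by omega⟩
    have hi : i < gs.length := by omega
    have hig : gs[i]? = some gs[i] := List.getElem?_eq_getElem hi
    rw [h2 i hi, brun_getD_gate hC hx hig, List.getD_eq_getElem _ _ hi]
    unfold gval
    congr 1
    refine List.map_congr_left fun a ha => ?_
    have := (hC i _ hig).2.2 a ha
    exact ih a this (by omega)

/-- the data of a circuit -/
abbrev BData := List Unit × List (ℕ × List ℕ) × List ℕ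

/-- the data of a circuit -/
def bdata (C : BCircuit) : BData := (List.replicate C.inputs (), C.gates, C.outputs)

theorem toT_bdata (C : BCircuit) : toT C = toT (bdata C) := rfl

/-! ### Evaluation in polynomial time -/

section

variable {α : Type} [TEnc α]

theorem poly_index {l : α → List Bool} (hl : Poly l) : Poly (fun a => index (l a)) := by
  have h4 : Poly (fun a => valB (l a)) := NPC.Poly.valBits hl
  refine h4.congr fun p => ?_
  generalize l p = l
  induction l with
  | nil => rfl
  | cons b l ih =>
    rw [valB, index, ih]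
    cases b <;> rfl

theorem poly_gval (B : Basis) {v : α → List Bool} {g : α → ℕ × List ℕ} (hv : Poly v)
    (hg : Poly g) : Poly (fun a => gval B (v a) (g a)) := by
  have h1 : Poly (fun a => index ((g a).2.map fun i => (v a).getD i false)) :=
    poly_index (by fun_prop)
  unfold gval Fn.val
  exact Poly.getD (by fun_prop) h1 (NPC.Poly.const _)

theorem sz_bools_le (l : List Bool) : sz l ≤ 4 * l.length + 1 := sz_listBool_le l

theorem poly_brun (B : Basis) {gs : α → List (ℕ × List ℕ)} {x : α → List Bool} (hg : Poly gs)
    (hx : Poly x) : Poly (fun a => brun B (gs a) (x a)) := by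
  obtain ⟨p, hp⟩ := hg.sz_le
  obtain ⟨q, hq⟩ := hx.sz_le
  unfold brun
  refine Poly.foldl (F := fun _ v g => v ++ [gval B v g]) hg hx ?_
    (Polynomial.C 4 * (p + q) + Polynomial.C 1) ?_
  · exact Poly.append (by fun_prop) (Poly.cons (poly_gval B (by fun_prop) (by fun_prop))
      (NPC.Poly.const _))
  · intro a k hk
    have h1 := brun_length (B := B) ((gs a).take k) (x a)
    unfold brun at h1
    refine (sz_bools_le _).trans ?_
    rw [h1, List.length_take]
    have h2 := hp a
    have h3 := hq a
    have h4 := length_lt_sz (gs a)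
    have h5 := length_lt_sz (x a)
    simp only [Polynomial.eval_add, Polynomial.eval_mul, Polynomial.eval_C]
    omega

theorem poly_beval (B : Basis) {c : α → BData} {x : α → List Bool} (hc : Poly c) (hx : Poly x) :
    Poly (fun a => (c a).2.2.map fun o => (brun B (c a).2.1 (x a)).getD o false) := by
  have h1 := poly_brun B (Poly.fst (Poly.snd hc)) hx
  refine NPC.Poly.map (F := fun a o => (brun B (c a).2.1 (x a)).getD o false) (by fun_prop) ?_
  exact Poly.getD (h1.comp (by fun_prop)) (by fun_prop) (NPC.Poly.const _)

end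

end Pool.Agent.Helper80K5
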