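import Pool.Agent.Helper80K5.Eval

/-!
# Circuits over a set of gates become circuits with AND, OR and NOT gates
-/

namespace Pool.Agent.Helper80K5

open Pool.Agent.NPC Pool.Agent.Helper80K4

section build

variable (k n : ℕ)

/-- the length of a block without its last gate -/
def wd : ℕ := 2 ^ k * (k + 1)

/-- the start of a block -/
def js (j : ℕ) : ℕ := 2 * n + 4 + j * (wd k + 1)

/-- the place of a node -/
def loc (i : ℕ) : ℕ := if i < n then i else js k n (i - n) + wd k - 1

/-- the place of the negation of a node -/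
def nloc (i : ℕ) : ℕ := if i < n then n + 1 + i else js k n (i - n) + wd k

/-- the literal number `u` of the row `t` of the table `T` -/
def lit (T : Bit) (t u : ℕ) : ℕ :=
  if u < T.1.length then
    (if tbit k t u = true then loc k n (T.1.getD u 0) else nloc k n (T.1.getD u 0)) else 2 * n + 3

/-- the gate number `u` in the row `t` of the table `T`, the row starting at `K` -/
def rg' (T : Bit) (t K u : ℕ) : Gate :=
  if u < k then
    Gate.and (if u = 0 then ct n T t else K + u - 1) (lit k n T t u)
  else Gate.or (K + u - 1) (if t = 0 then 2 * n + 2 else K - 1)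

/-- the gate at the place `p` of the block `j` -/
def jg (o : List Bit) (j p : ℕ) : Gate :=
  if p = wd k then Gate.not (js k n j + p - 1)
  else rg' k n (o.getD j ([], [])) (p / (k + 1)) (js k n j + p / (k + 1) * (k + 1)) (p % (k + 1))

/-- the gate of the node `i` -/
def vg (o : List Bit) (i : ℕ) : Gate :=
  if i < 2 * n + 2 then Gate.not (i - (n + 1))
  else if i = 2 * n + 2 then Gate.and n (2 * n + 1)
  else if i = 2 * n + 3 then Gate.or n (2 * n + 1)
  else jg k n o ((i - (2 * n + 4)) / (wd k + 1)) ((i - (2 * n + 4)) % (wd k + 1))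

/-- the circuit -/
def vcirc (o : List Bit) (outs : List ℕ) : Circuit where
  inputs := n + 1
  gates := (List.range (n + 3 + o.length * (wd k + 1))).map fun g => vg k n o (n + 1 + g)
  outputs := outs.map (loc k n)

end build

section

variable {k n : ℕ} {o : List Bit} {outs : List ℕ}

theorem wd_pos : 0 < wd k := by unfold wd; positivity

theorem vg_block {j p : ℕ} (hp : p < wd k + 1) : vg k n o (js k n j + p) = jg k n o j p := by
  have e1 : js k n j + p - (2 * n + 4) = p + j * (wd k + 1) := by unfold js; omega
  have e2 : (p + j * (wd k + 1)) / (wd k + 1) = j := by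
    rw [Nat.add_mul_div_right _ _ (by omega), Nat.div_eq_of_lt hp, zero_add]
  have e3 : (p + j * (wd k + 1)) % (wd k + 1) = p := by
    rw [Nat.add_mul_mod_self_right, Nat.mod_eq_of_lt hp]
  unfold vg
  rw [if_neg (by unfold js; omega), if_neg (by unfold js; omega), if_neg (by unfold js; omega),
    e1, e2, e3]

theorem row_lt {t u : ℕ} (ht : t < 2 ^ k) (hu : u < k + 1) : t * (k + 1) + u < wd k := by
  unfold wd
  have := Nat.mul_le_mul_right (k + 1) ht
  rw [Nat.succ_mul] at this
  omega

theorem vg_row {j t u : ℕ} (ht : t < 2 ^ k) (hu : u < k + 1) :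
    vg k n o (js k n j + t * (k + 1) + u) =
      rg' k n (o.getD j ([], [])) t (js k n j + t * (k + 1)) u := by
  have h1 := row_lt ht hu
  have e2 : (t * (k + 1) + u) / (k + 1) = t := by
    rw [add_comm, Nat.add_mul_div_right _ _ (by omega), Nat.div_eq_of_lt hu, zero_add]
  have e3 : (t * (k + 1) + u) % (k + 1) = u := by
    rw [add_comm, Nat.add_mul_mod_self_right, Nat.mod_eq_of_lt hu]
  rw [add_assoc, vg_block (by omega)]
  unfold jg
  rw [if_neg (by omega), e2, e3]

theorem vg_not {j : ℕ} : vg k n o (js k n j + wd k) = Gate.not (js k n j + wd k - 1) := by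
  rw [vg_block (by omega)]
  unfold jg
  rw [if_pos rfl]

theorem js_succ (j : ℕ) : js k n (j + 1) = js k n j + (wd k + 1) := by
  unfold js; ring

theorem js_mono {i j : ℕ} (h : i ≤ j) : js k n i ≤ js k n j := by
  unfold js
  have := Nat.mul_le_mul_right (wd k + 1) h
  omega

theorem js_ge (j : ℕ) : 2 * n + 4 ≤ js k n j := by unfold js; omega

theorem js_len (g : ℕ) : n + 1 + (n + 3 + g * (wd k + 1)) = js k n g := by unfold js; omega

theorem loc_lt {i j : ℕ} (h : i < n + j) : loc k n i < js k n j ∧ nloc k n i < js k n j := by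
  have := js_ge (k := k) (n := n) j
  unfold loc nloc
  split_ifs with h1
  · omega
  · have h2 := js_mono (k := k) (n := n) (show i - n + 1 ≤ j by omega)
    rw [js_succ] at h2
    omega

theorem exists_blk {i g : ℕ} (h1 : 2 * n + 4 ≤ i) (h2 : i < js k n g) :
    ∃ j p, j < g ∧ p < wd k + 1 ∧ i = js k n j + p := by
  refine ⟨(i - (2 * n + 4)) / (wd k + 1), (i - (2 * n + 4)) % (wd k + 1), ?_,
    Nat.mod_lt _ (by omega), ?_⟩
  · rw [Nat.div_lt_iff_lt_mul (by omega)]
    unfold js at h2
    omega
  · have := Nat.div_add_mod' (i - (2 * n + 4)) (wd k + 1)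
    unfold js
    omega

theorem vcirc_gate {i : ℕ} (h1 : n + 1 ≤ i) (h2 : i < js k n o.length) :
    (vcirc k n o outs).gates[i - (n + 1)]? = some (vg k n o i) := by
  rw [← js_len] at h2
  unfold vcirc
  simp only
  rw [List.getElem?_map, List.getElem?_range (by omega)]
  simp only [Option.map_some, Option.some.injEq]
  congr 1
  omega

/-- the tables are well formed -/
def OkT (k n : ℕ) (o : List Bit) : Prop :=
  ∀ j < o.length, (o.getD j ([], [])).1.length ≤ k ∧
    (o.getD j ([], [])).2.length = 2 ^ (o.getD j ([], [])).1.length ∧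
    ∀ i ∈ (o.getD j ([], [])).1, i < n + j

theorem lit_lt (ho : OkT k n o) {j t u : ℕ} (hj : j < o.length) :
    lit k n (o.getD j ([], [])) t u < js k n j := by
  have h0 := js_ge (k := k) (n := n) j
  unfold lit
  split_ifs with d4 d5
  · have h1 : (o.getD j ([], [])).1.getD u 0 < n + j := by
      rw [List.getD_eq_getElem _ _ d4]
      exact (ho j hj).2.2 _ (List.getElem_mem _)
    exact (loc_lt h1).1
  · have h1 : (o.getD j ([], [])).1.getD u 0 < n + j := by
      rw [List.getD_eq_getElem _ _ d4]
      exact (ho j hj).2.2 _ (List.getElem_mem _)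
    exact (loc_lt h1).2
  · omega

theorem vg_reads (hk : 1 ≤ k) (ho : OkT k n o) {i : ℕ} (h1 : n + 1 ≤ i)
    (h2 : i < js k n o.length) : ∀ a ∈ (vg k n o i).reads, a < i := by
  have hw := wd_pos (k := k)
  by_cases c1 : i < 2 * n + 2
  · unfold vg
    rw [if_pos c1]
    intro a ha
    simp only [Gate.reads, List.mem_cons, List.not_mem_nil, or_false] at ha
    omega
  by_cases c2 : i = 2 * n + 2
  · unfold vg
    rw [if_neg c1, if_pos c2]
    intro a ha
    simp only [Gate.reads, List.mem_cons, List.not_mem_nil, or_false] at ha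
    omega
  by_cases c3 : i = 2 * n + 3
  · unfold vg
    rw [if_neg c1, if_neg c2, if_pos c3]
    intro a ha
    simp only [Gate.reads, List.mem_cons, List.not_mem_nil, or_false] at ha
    omega
  obtain ⟨j, p, hj, hp, rfl⟩ := exists_blk (k := k) (n := n) (by omega) h2
  have hK := js_ge (k := k) (n := n) j
  rw [vg_block hp]
  unfold jg
  split_ifs with c4
  · intro a ha
    simp only [Gate.reads, List.mem_cons, List.not_mem_nil, or_false] at ha
    omega
  · have e := Nat.div_add_mod' p (k + 1)
    have hu := Nat.mod_lt p (show 0 < k + 1 by omega)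
    obtain ⟨t, ht⟩ : ∃ t, t = p / (k + 1) := ⟨_, rfl⟩
    obtain ⟨u, hu'⟩ : ∃ u, u = p % (k + 1) := ⟨_, rfl⟩
    rw [← ht, ← hu'] at e ⊢
    rw [← hu'] at hu
    have hl := lit_lt ho (t := t) (u := u) hj
    unfold rg'
    split_ifs with d1 d2 d3
    · intro a ha
      simp only [Gate.reads, List.mem_cons, List.not_mem_nil, or_false] at ha
      rcases ha with rfl | rfl
      · unfold ct; split_ifs <;> omega
      · omega
    · intro a ha
      simp only [Gate.reads, List.mem_cons, List.not_mem_nil, or_false] at ha
      rcases ha with rfl | rfl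
      · omega
      · omega
    · intro a ha
      simp only [Gate.reads, List.mem_cons, List.not_mem_nil, or_false] at ha
      omega
    · intro a ha
      simp only [Gate.reads, List.mem_cons, List.not_mem_nil, or_false] at ha
      omega

theorem vcirc_valid (hk : 1 ≤ k) (ho : OkT k n o) (hout : ∀ q ∈ outs, n ≤ q ∧ q < n + o.length) :
    (vcirc k n o outs).Valid := by
  have hw := wd_pos (k := k)
  constructor
  · intro i g hg a ha
    have hi : i < n + 3 + o.length * (wd k + 1) := by
      have := (List.getElem?_eq_some_iff.1 hg).1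
      simpa [vcirc] using this
    have hlen := js_len (k := k) (n := n) o.length
    have := vcirc_gate (k := k) (n := n) (o := o) (outs := outs) (i := n + 1 + i) (by omega)
      (by omega)
    rw [Nat.add_sub_cancel_left, hg] at this
    have hgg : g = vg k n o (n + 1 + i) := by simpa using this
    rw [hgg] at ha
    exact vg_reads (i := n + 1 + i) hk ho (by omega) (by omega) a ha
  · intro q hq
    unfold vcirc at hq ⊢
    simp only [List.mem_map] at hq
    obtain ⟨q, hq, rfl⟩ := hq
    obtain ⟨h1, h2⟩ := hout q hq
    simp only [List.length_map, List.length_range]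
    rw [js_len]
    refine ⟨?_, (loc_lt h2).1⟩
    unfold loc
    rw [if_neg (by omega)]
    have := js_ge (k := k) (n := n) (q - n)
    omega

/-- the equations of the nodes -/
theorem vcirc_eq (hk : 1 ≤ k) (ho : OkT k n o) (hout : ∀ q ∈ outs, n ≤ q ∧ q < n + o.length)
    {x : List Bool} (hx : x.length = n + 1) {i : ℕ} (h1 : n + 1 ≤ i)
    (h2 : i < js k n o.length) :
    ((vcirc k n o outs).nodes x).getD i false =
      (vg k n o i).eval ((vcirc k n o outs).nodes x) := by
  have := nodes_getD_gate (vcirc_valid hk ho hout) (x := x) hx (vcirc_gate h1 h2)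
  have e : (vcirc k n o outs).inputs + (i - (n + 1)) = i := by
    change n + 1 + _ = _
    omega
  rwa [e] at this

variable (hk : 1 ≤ k) (ho : OkT k n o) (hout : ∀ q ∈ outs, n ≤ q ∧ q < n + o.length)
  {x : List Bool} (hx : x.length = n + 1)

include hk ho hout hx

theorem v_not {i : ℕ} (hi : i < n + 1) :
    ((vcirc k n o outs).nodes x).getD (n + 1 + i) false = !(x.getD i false) := by
  have hlen := js_ge (k := k) (n := n) o.length
  rw [vcirc_eq hk ho hout hx (by omega) (by omega)]
  unfold vg
  rw [if_pos (by omega), Nat.add_sub_cancel_left]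
  simp only [Gate.eval]
  rw [nodes_getD_lt (by omega)]

theorem v_zero : ((vcirc k n o outs).nodes x).getD (2 * n + 2) false = false := by
  have hlen := js_ge (k := k) (n := n) o.length
  rw [vcirc_eq hk ho hout hx (by omega) (by omega)]
  unfold vg
  rw [if_neg (by omega), if_pos rfl]
  simp only [Gate.eval]
  have := v_not hk ho hout hx (i := n) (by omega)
  rw [show n + 1 + n = 2 * n + 1 by omega] at this
  rw [this, nodes_getD_lt (by omega)]
  cases x.getD n false <;> rfl

theorem v_one : ((vcirc k n o outs).nodes x).getD (2 * n + 3) false = true := by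
  have hlen := js_ge (k := k) (n := n) o.length
  rw [vcirc_eq hk ho hout hx (by omega) (by omega)]
  unfold vg
  rw [if_neg (by omega), if_neg (by omega), if_pos rfl]
  simp only [Gate.eval]
  have := v_not hk ho hout hx (i := n) (by omega)
  rw [show n + 1 + n = 2 * n + 1 by omega] at this
  rw [this, nodes_getD_lt (by omega)]
  cases x.getD n false <;> rfl

/-- negations -/
theorem v_nloc {i : ℕ} (hi : i < n + o.length) :
    ((vcirc k n o outs).nodes x).getD (nloc k n i) false =
      !(((vcirc k n o outs).nodes x).getD (loc k n i) false) := by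
  have hw := wd_pos (k := k)
  unfold loc nloc
  split_ifs with h
  · rw [v_not hk ho hout hx (by omega), nodes_getD_lt (by omega)]
  · have h0 := js_ge (k := k) (n := n) (i - n)
    have h1 := js_mono (k := k) (n := n) (show i - n + 1 ≤ o.length by omega)
    rw [js_succ] at h1
    rw [vcirc_eq hk ho hout hx (by omega) (by omega), vg_not]
    simp only [Gate.eval]

theorem v_lit {j t u : ℕ} (hj : j < o.length) (hu : u < k) :
    ((vcirc k n o outs).nodes x).getD (lit k n (o.getD j ([], [])) t u) false = true ↔
      (u < (o.getD j ([], [])).1.length →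
        ((vcirc k n o outs).nodes x).getD (loc k n ((o.getD j ([], [])).1.getD u 0)) false =
          decide (t / 2 ^ u % 2 = 1)) := by
  unfold lit
  split_ifs with d1 d2
  · rw [tbit_eq hu, decide_eq_true_eq] at d2
    rw [decide_eq_true d2]
    exact ⟨fun h _ => h, fun h => h d1⟩
  · have h1 : (o.getD j ([], [])).1.getD u 0 < n + j := by
      rw [List.getD_eq_getElem _ _ d1]
      exact (ho j hj).2.2 _ (List.getElem_mem _)
    rw [tbit_eq hu, decide_eq_true_eq] at d2
    rw [v_nloc hk ho hout hx (by omega), decide_eq_false d2, Bool.not_eq_true']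
    exact ⟨fun h _ => h, fun h => h d1⟩
  · rw [v_one hk ho hout hx]
    exact ⟨fun _ h => absurd h d1, fun _ => rfl⟩

theorem v_const {T : Bit} {t : ℕ} :
    ((vcirc k n o outs).nodes x).getD (ct n T t) false = T.2.getD t false := by
  unfold ct
  split_ifs with d1
  · rw [v_one hk ho hout hx, d1]
  · rw [v_zero hk ho hout hx]
    rw [Bool.not_eq_true] at d1
    exact d1.symm

omit hk ho hout hx in
theorem row_len {j t u : ℕ} (hj : j < o.length) (ht : t < 2 ^ k) (hu : u < k + 1) :
    js k n j + t * (k + 1) + u < js k n o.length := by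
  have h1 := row_lt ht hu
  have h2 := js_mono (k := k) (n := n) (show j + 1 ≤ o.length from hj)
  rw [js_succ] at h2
  omega

/-- the chain of a row -/
theorem v_chain {j t : ℕ} (hj : j < o.length) (ht : t < 2 ^ k) (u : ℕ) (hu : u < k) :
    ((vcirc k n o outs).nodes x).getD (js k n j + t * (k + 1) + u) false = true ↔
      (o.getD j ([], [])).2.getD t false = true ∧ ∀ u' ≤ u, u' < (o.getD j ([], [])).1.length →
        ((vcirc k n o outs).nodes x).getD (loc k n ((o.getD j ([], [])).1.getD u' 0)) false =
          decide (t / 2 ^ u' % 2 = 1) := by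
  have h0 := js_ge (k := k) (n := n) j
  induction u with
  | zero =>
    rw [vcirc_eq hk ho hout hx (by omega) (row_len hj ht (by omega)), vg_row ht (by omega)]
    unfold rg'
    rw [if_pos hu, if_pos rfl]
    simp only [Gate.eval]
    rw [Bool.and_eq_true, v_const hk ho hout hx, v_lit hk ho hout hx hj hu]
    refine and_congr_right fun _ => ⟨fun h u' hu' => ?_, fun h => h 0 le_rfl⟩
    obtain rfl : u' = 0 := by omega
    exact h
  | succ u ih =>
    have ih := ih (by omega)
    rw [vcirc_eq hk ho hout hx (by omega) (row_len hj ht (by omega)), vg_row ht (by omega)]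
    unfold rg'
    rw [if_pos hu, if_neg (by omega)]
    simp only [Gate.eval]
    have e : js k n j + t * (k + 1) + (u + 1) - 1 = js k n j + t * (k + 1) + u := by omega
    rw [e, Bool.and_eq_true]
    refine (and_congr ih (v_lit hk ho hout hx hj hu)).trans ?_
    rw [and_assoc]
    refine and_congr_right fun _ => ⟨fun h u' hu' => ?_, fun h => ⟨fun u' hu' => h u' (by omega),
      h (u + 1) le_rfl⟩⟩
    by_cases h' : u' = u + 1
    · rw [h']; exact h.2
    · exact h.1 u' (by omega)

/-- the disjunction of the rows -/
theorem v_or {j : ℕ} (hj : j < o.length) (t : ℕ) (ht : t < 2 ^ k) :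
    ((vcirc k n o outs).nodes x).getD (js k n j + t * (k + 1) + k) false = true ↔
      ∃ t' ≤ t, (o.getD j ([], [])).2.getD t' false = true ∧
        ∀ u < (o.getD j ([], [])).1.length,
          ((vcirc k n o outs).nodes x).getD (loc k n ((o.getD j ([], [])).1.getD u 0)) false =
            decide (t' / 2 ^ u % 2 = 1) := by
  have h0 := js_ge (k := k) (n := n) j
  have hjl := (ho j hj).1
  have hrow : ∀ t < 2 ^ k, ((vcirc k n o outs).nodes x).getD
      (js k n j + t * (k + 1) + k - 1) false = true ↔
      (o.getD j ([], [])).2.getD t false = true ∧ ∀ u < (o.getD j ([], [])).1.length,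
          ((vcirc k n o outs).nodes x).getD (loc k n ((o.getD j ([], [])).1.getD u 0)) false =
            decide (t / 2 ^ u % 2 = 1) := by
    intro t ht
    have := v_chain hk ho hout hx hj ht (k - 1) (by omega)
    rw [show js k n j + t * (k + 1) + (k - 1) = js k n j + t * (k + 1) + k - 1 by omega] at this
    rw [this]
    refine and_congr_right fun _ => ⟨fun h u hu => h u (by omega) hu, fun h u _ hu => h u hu⟩
  induction t with
  | zero =>
    rw [vcirc_eq hk ho hout hx (by omega) (row_len hj ht (by omega)), vg_row ht (by omega)]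
    unfold rg'
    rw [if_neg (by omega), if_pos rfl]
    simp only [Gate.eval]
    rw [v_zero hk ho hout hx, Bool.or_false, hrow 0 ht]
    constructor
    · intro h
      exact ⟨0, le_rfl, h⟩
    · rintro ⟨t', ht', h⟩
      obtain rfl : t' = 0 := by omega
      exact h
  | succ t ih =>
    have ih := ih (by omega)
    rw [vcirc_eq hk ho hout hx (by omega) (row_len hj ht (by omega)), vg_row ht (by omega)]
    unfold rg'
    rw [if_neg (by omega), if_neg (by omega)]
    simp only [Gate.eval]
    have e : js k n j + (t + 1) * (k + 1) - 1 = js k n j + t * (k + 1) + k := by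
      rw [Nat.succ_mul]; omega
    rw [e, Bool.or_eq_true, hrow (t + 1) ht]
    refine (or_congr_right ih).trans ?_
    constructor
    · rintro (h | ⟨t', ht', h⟩)
      · exact ⟨t + 1, le_rfl, h⟩
      · exact ⟨t', by omega, h⟩
    · rintro ⟨t', ht', h⟩
      by_cases h' : t' = t + 1
      · rw [h'] at h; exact Or.inl h
      · exact Or.inr ⟨t', by omega, h⟩

/-- the value of a block -/
theorem v_out {j : ℕ} (hj : j < o.length) :
    ((vcirc k n o outs).nodes x).getD (loc k n (n + j)) false =
      (o.getD j ([], [])).2.getD (index ((o.getD j ([], [])).1.map fun i =>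
        ((vcirc k n o outs).nodes x).getD (loc k n i) false)) false := by
  obtain ⟨hjl, hjt, _⟩ := ho j hj
  have h2k : 0 < 2 ^ k := by positivity
  have h := v_or hk ho hout hx hj (2 ^ k - 1) (by omega)
  have eloc : loc k n (n + j) = js k n j + (2 ^ k - 1) * (k + 1) + k := by
    unfold loc
    rw [if_neg (by omega), Nat.add_sub_cancel_left]
    have : wd k = (2 ^ k - 1) * (k + 1) + (k + 1) := by
      unfold wd
      obtain ⟨q, hq⟩ : ∃ q, 2 ^ k = q + 1 := ⟨2 ^ k - 1, by omega⟩
      rw [hq, Nat.add_sub_cancel]
      ring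
    omega
  rw [eloc]
  obtain ⟨w, hw⟩ : ∃ w : ℕ → Bool, w = fun i =>
    ((vcirc k n o outs).nodes x).getD (loc k n i) false := ⟨_, rfl⟩
  obtain ⟨T, hT⟩ : ∃ T, T = o.getD j ([], []) := ⟨_, rfl⟩
  rw [← hT] at h hjl hjt ⊢
  rw [← hw, Bool.eq_iff_iff, h]
  have hw' : ∀ i, ((vcirc k n o outs).nodes x).getD (loc k n i) false = w i := fun i => by rw [hw]
  simp only [hw']
  have hidx := index_lt (T.1.map w)
  rw [List.length_map] at hidx
  have hle : 2 ^ T.1.length ≤ 2 ^ k := Nat.pow_le_pow_right (by omega) hjl
  have key : ∀ t < 2 ^ T.1.length, (∀ u < T.1.length,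
      w (T.1.getD u 0) = decide (t / 2 ^ u % 2 = 1)) ↔ t = index (T.1.map w) := by
    intro t ht
    rw [← index_iff _ _ (by rw [List.length_map]; exact ht), List.length_map]
    refine forall₂_congr fun u hu => ?_
    rw [getD_map_lt _ _ hu 0]
  constructor
  · rintro ⟨t, ht, h1, h2⟩
    have ht' : t < 2 ^ T.1.length := by
      by_contra hcon
      rw [List.getD_eq_default _ _ (by omega)] at h1
      exact absurd h1 (by simp)
    rw [(key t ht').1 h2] at h1
    exact h1
  · intro h1
    exact ⟨_, by omega, h1, (key _ hidx).2 rfl⟩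

end

/-! ### Circuits over a set of gates -/

/-- a bound for the numbers of arguments -/
def ar (B : Basis) : ℕ := (B.map fun f => f.1).sum + 1

theorem ar_ge {B : Basis} {f : Fn} (hf : f ∈ B) : f.1 ≤ ar B := by
  have := List.single_le_sum (l := B.map fun f => f.1) (by simp) f.1 (List.mem_map.2 ⟨f, hf, rfl⟩)
  unfold ar
  omega

/-- the tables of the gates -/
def tabs (B : Basis) (gs : List (ℕ × List ℕ)) : List Bit :=
  gs.map fun g => (g.2, (B.getD g.1 (0, [])).2)

theorem tabs_getD {B : Basis} {gs : List (ℕ × List ℕ)} {j : ℕ} (hj : j < gs.length) :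
    (tabs B gs).getD j ([], []) = (gs[j].2, (B.getD gs[j].1 (0, [])).2) := by
  unfold tabs
  rw [List.getD_eq_getElem _ _ (by simpa using hj), List.getElem_map]

theorem tabs_ok {B : Basis} (hB : B.Ok) {n : ℕ} {gs : List (ℕ × List ℕ)} (hC : VG B n gs) :
    OkT (ar B) n (tabs B gs) := by
  intro j hj
  have hj : j < gs.length := by simpa [tabs] using hj
  obtain ⟨h1, h2, h3⟩ := hC j _ (List.getElem?_eq_getElem hj)
  have hmem : B.getD gs[j].1 (0, []) ∈ B := by
    rw [List.getD_eq_getElem _ _ h1]
    exact List.getElem_mem _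
  rw [tabs_getD hj]
  refine ⟨?_, ?_, h3⟩
  · simp only
    rw [h2]
    exact ar_ge hmem
  · simp only
    rw [hB _ hmem, h2]

theorem vcirc_eval {B : Basis} (hB : B.Ok) {C : BCircuit} (hC : C.Valid B) {x : List Bool}
    (hx : x.length = C.inputs + 1) :
    (vcirc (ar B) C.inputs (tabs B C.gates) C.outputs).eval x =
      C.eval B (x.take C.inputs) := by
  have hk : 1 ≤ ar B := by unfold ar; omega
  have ho := tabs_ok hB hC.1
  have hl : (tabs B C.gates).length = C.gates.length := by unfold tabs; simp
  have hout : ∀ q ∈ C.outputs, C.inputs ≤ q ∧ q < C.inputs + (tabs B C.gates).length := by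
    rw [hl]; exact hC.2
  obtain ⟨v, hv⟩ : ∃ v : List Bool, v =
    (vcirc (ar B) C.inputs (tabs B C.gates) C.outputs).nodes x := ⟨_, rfl⟩
  have key := bcopy_sem hC.1 (x := x.take C.inputs) (by simp [hx])
    (w := fun j => v.getD j false) (τ := loc (ar B) C.inputs) (by
      intro j hj
      unfold loc
      rw [if_pos hj, hv, nodes_getD_lt (by omega), List.getD_eq_getElem?_getD,
        List.getD_eq_getElem?_getD, List.getElem?_take_of_lt hj]) (by
      intro i hi
      have h := v_out hk ho hout hx (j := i) (by omega)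
      rw [← hv, tabs_getD hi] at h
      rw [h, List.getD_eq_getElem _ _ hi]
      rfl)
  unfold Circuit.eval BCircuit.eval
  rw [← hv]
  change (C.outputs.map (loc (ar B) C.inputs)).map (fun o => v.getD o false) = _
  rw [List.map_map]
  refine List.map_congr_left fun q hq => ?_
  exact key q (hC.2 q hq).2

/-! ### Polynomial time -/

section

variable {α : Type} [TEnc α]

theorem poly_js {k : ℕ} {n j : α → ℕ} (hn : Poly n) (hj : Poly j) :
    Poly (fun a => js k (n a) (j a)) := by
  unfold js
  have h := NPC.Poly.const (α := α) (wd k)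
  generalize wd k = S at h
  fun_prop

theorem poly_loc {k : ℕ} {n i : α → ℕ} (hn : Poly n) (hi : Poly i) :
    Poly (fun a => loc k (n a) (i a)) := by
  unfold loc
  exact Poly.ite (by fun_prop) hi (Poly.sub (Poly.add (poly_js hn (by fun_prop))
    (NPC.Poly.const _)) (NPC.Poly.const _))

theorem poly_nloc {k : ℕ} {n i : α → ℕ} (hn : Poly n) (hi : Poly i) :
    Poly (fun a => nloc k (n a) (i a)) := by
  unfold nloc
  exact Poly.ite (by fun_prop) (by fun_prop) (Poly.add (poly_js hn (by fun_prop))
    (NPC.Poly.const _))

theorem poly_lit {k : ℕ} {n t u : α → ℕ} {T : α → Bit} (hn : Poly n) (hT : Poly T) (ht : Poly t)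
    (hu : Poly u) : Poly (fun a => lit k (n a) (T a) (t a) (u a)) := by
  have h := poly_tbit (k := k) ht hu
  unfold lit
  exact Poly.ite (by fun_prop) (Poly.ite (Poly.decide_bool h) (poly_loc hn (by fun_prop))
    (poly_nloc hn (by fun_prop))) (by fun_prop)

theorem poly_rg' {k : ℕ} {n t K u : α → ℕ} {T : α → Bit} (hn : Poly n) (hT : Poly T)
    (ht : Poly t) (hK : Poly K) (hu : Poly u) :
    Poly (fun a => rg' k (n a) (T a) (t a) (K a) (u a)) := by
  have h1 := poly_lit (k := k) hn hT ht hu
  have h2 := poly_ct hn hT ht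
  unfold rg'
  refine Poly.ite (by fun_prop) (poly_and (Poly.ite (by fun_prop) h2 (by fun_prop)) h1)
    (poly_or (by fun_prop) (by fun_prop))

theorem poly_jg {k : ℕ} {n j p : α → ℕ} {o : α → List Bit} (hn : Poly n) (ho : Poly o)
    (hj : Poly j) (hp : Poly p) : Poly (fun a => jg k (n a) (o a) (j a) (p a)) := by
  have hJ := poly_js (k := k) hn hj
  have hT : Poly (fun a => (o a).getD (j a) ([], [])) := by fun_prop
  have ht : Poly (fun a => p a / (k + 1)) := by fun_prop
  have hu : Poly (fun a => p a % (k + 1)) := by fun_prop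
  unfold jg
  refine Poly.ite (Poly.decide_eq hp (NPC.Poly.const _)) (poly_not (Poly.sub (Poly.add hJ hp)
    (NPC.Poly.const _))) ?_
  exact poly_rg' hn hT ht (Poly.add hJ (Poly.mul ht (NPC.Poly.const _))) hu

theorem poly_vg {k : ℕ} {n i : α → ℕ} {o : α → List Bit} (hn : Poly n) (ho : Poly o)
    (hi : Poly i) : Poly (fun a => vg k (n a) (o a) (i a)) := by
  unfold vg
  have hS := NPC.Poly.const (α := α) (wd k + 1)
  have hw : Poly (fun a => i a - (2 * n a + 4)) := by fun_prop
  refine Poly.ite (by fun_prop) (poly_not (by fun_prop)) (Poly.ite (by fun_prop)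
    (poly_and (by fun_prop) (by fun_prop)) (Poly.ite (by fun_prop)
    (poly_or (by fun_prop) (by fun_prop)) ?_))
  exact poly_jg hn ho (Poly.div hw hS) (Poly.mod hw hS)

theorem poly_vcirc {k : ℕ} {n : α → ℕ} {o : α → List Bit} {q : α → List ℕ} (hn : UPoly n)
    (ho : Poly o) (hq : Poly q) : Poly (fun a => vcirc k (n a) (o a) (q a)) := by
  have hN : UPoly (fun a => n a + 3 + (o a).length * (wd k + 1)) :=
    (hn.add (UPoly.const 3)).add ((UPoly.length ho).mul (UPoly.const _))
  have hn0 := hn.toPoly
  have h1 : Poly (fun a => (List.range (n a + 3 + (o a).length * (wd k + 1))).map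
      fun g => vg k (n a) (o a) (n a + 1 + g)) := by
    refine NPC.Poly.map (F := fun a g => vg k (n a) (o a) (n a + 1 + g)) hN.range ?_
    exact poly_vg (by fun_prop) (by fun_prop) (by fun_prop)
  have h2 : Poly (fun a => (q a).map (loc k (n a))) := by
    refine NPC.Poly.map (F := fun a j => loc k (n a) j) hq ?_
    exact poly_loc (by fun_prop) (by fun_prop)
  have h3 : Poly (fun a => List.replicate (n a + 1) ()) := hn.add (UPoly.const 1)
  exact Poly.of_toT ((Poly.toT' (Poly.pair h3 (Poly.pair h1 h2))).congr fun _ => rfl)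

end

/-- Circuits over a set of gates reduce to circuits. -/
theorem upperB {B : Basis} (hB : B.Ok) (h : CircuitFlip) : BFlip B := by
  refine Solvable.of_red toT_bdata h
    (red := fun c => vcirc (ar B) c.1.length (tabs B c.2.1) c.2.2)
    (post := fun c y => (List.range c.1.length).map fun i => y.getD i false) ?_ ?_ ?_ ?_
  · refine poly_vcirc (UPoly.length (by fun_prop)) ?_ (by fun_prop)
    unfold tabs
    refine NPC.Poly.map (F := fun _ (g : ℕ × List ℕ) => ((g.2, (B.getD g.1 (0, [])).2) : Bit))
      (by fun_prop) ?_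
    fun_prop
  · refine NPC.Poly.map (F := fun (p : BData × List Bool) i => p.2.getD i false)
      (UPoly.length (by fun_prop)).range (by fun_prop)
  · intro C hC
    unfold bdata
    simp only [List.length_replicate]
    refine vcirc_valid (by unfold ar; omega) (tabs_ok hB hC.1) ?_
    have hl : (tabs B C.gates).length = C.gates.length := by unfold tabs; simp
    rw [hl]; exact hC.2
  · intro C hC y hy
    unfold bdata at hy ⊢
    simp only [List.length_replicate] at hy ⊢
    have hyl : y.length = C.inputs + 1 := hy.1
    have e : ((List.range C.inputs).map fun i => y.getD i false) = y.take C.inputs := by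
      refine List.ext_getElem (by simp [hyl]) fun i h1 h2 => ?_
      have hi : i < C.inputs := by simpa using h1
      rw [List.getElem_map, List.getElem_range, List.getElem_take,
        List.getD_eq_getElem _ _ (by omega)]
    rw [e]
    refine ⟨by simp [hyl], fun i hi => ?_⟩
    have h1 := hy.2 i (show i < C.inputs + 1 by omega)
    rw [vcirc_eval hB hC hyl, vcirc_eval hB hC (by simp [hyl])] at h1
    have e2 : (y.modify i not).take C.inputs = (y.take C.inputs).modify i not := by
      refine List.ext_getElem? fun j => ?_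
      by_cases hj : j < C.inputs
      · rw [List.getElem?_take_of_lt hj, List.getElem?_modify, List.getElem?_modify,
          List.getElem?_take_of_lt hj]
      · rw [List.getElem?_eq_none (by simp; omega), List.getElem?_eq_none (by simp; omega)]
    rwa [e2] at h1

end Pool.Agent.Helper80K5
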