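import Pool.Agent.Helper80K5.Post
import Pool.Agent.Helper80K5.Upper

/-!
# Circuits with AND, OR and NOT gates become circuits over a set of gates
-/

namespace Pool.Agent.Helper80K5

open Pool.Agent.NPC Pool.Agent.Helper80K4

/-- a program for the identity and a program for NAND with an additional input, with the numbers
of the gates which give the values -/
structure Prg where
  is : List (ℕ × List ℕ)
  ns : List (ℕ × List ℕ)
  ri : ℕ
  rn : ℕ

/-- the programs are correct -/
structure Prg.Ok (B : Basis) (P : Prg) : Prop where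
  vi : VG B 1 P.is
  hi : P.ri < P.is.length
  si : ∀ z : Bool, (brun B P.is [z]).getD (1 + P.ri) false = z
  vn : VG B 3 P.ns
  hn : P.rn < P.ns.length
  sn : ∀ a b : Bool, (brun B P.ns [a, b, false]).getD (3 + P.rn) false = !(a && b)

/-- the first argument of the copy `q` -/
def s1 (k q a b N1 N2 : ℕ) : ℕ :=
  if q = 0 then a else if q = 1 then (if k = 0 then a else if k = 1 then b else N1) else N2

/-- the second argument of the copy `q` -/
def s2 (k q a b N1 N2 : ℕ) : ℕ :=
  if q = 0 then (if k = 0 then b else a) else if q = 1 then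
    (if k = 0 then b else if k = 1 then b else N1) else if k = 0 then N1 else if k = 1 then N1
    else N2

/-- the references of a copy of the program for NAND -/
def rho (n K r1 r2 a : ℕ) : ℕ :=
  if a = 0 then r1 else if a = 1 then r2 else if a = 2 then n else K + (a - 3)

namespace Prg

variable (P : Prg) (n : ℕ)

/-- the place where the block of the gate `j` starts -/
def ks (j : ℕ) : ℕ := n + 1 + P.is.length + j * (3 * P.ns.length)

/-- the place of a node -/
def lc (i : ℕ) : ℕ := if i < n then i else P.ks n (i - n) + 2 * P.ns.length + P.rn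

/-- a gate of a copy of the program for NAND -/
def cg (K r1 r2 u : ℕ) : ℕ × List ℕ :=
  ((P.ns.getD u (0, [])).1, (P.ns.getD u (0, [])).2.map (rho n K r1 r2))

/-- the gate at the place `p` of the block of the gate `c` -/
def jw (c : ℕ × ℕ × ℕ) (K p : ℕ) : ℕ × List ℕ :=
  P.cg n (K + p / P.ns.length * P.ns.length)
    (s1 c.1 (p / P.ns.length) (P.lc n c.2.1) (P.lc n (if c.1 = 2 then c.2.1 else c.2.2))
      (K + P.rn) (K + P.ns.length + P.rn))
    (s2 c.1 (p / P.ns.length) (P.lc n c.2.1) (P.lc n (if c.1 = 2 then c.2.1 else c.2.2))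
      (K + P.rn) (K + P.ns.length + P.rn)) (p % P.ns.length)

/-- the gate of the node `i` -/
def wg (cs : List (ℕ × ℕ × ℕ)) (i : ℕ) : ℕ × List ℕ :=
  if i < n + 1 + P.is.length then
    ((P.is.getD (i - (n + 1)) (0, [])).1, (P.is.getD (i - (n + 1)) (0, [])).2.map fun a => n + a)
  else P.jw n (cs.getD ((i - (n + 1 + P.is.length)) / (3 * P.ns.length)) (0, 0, 0))
    (P.ks n ((i - (n + 1 + P.is.length)) / (3 * P.ns.length)))
    ((i - (n + 1 + P.is.length)) % (3 * P.ns.length))

/-- the circuit -/
def wcirc (cs : List (ℕ × ℕ × ℕ)) (outs : List ℕ) : BCircuit where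
  inputs := n + 1
  gates := (List.range (P.is.length + cs.length * (3 * P.ns.length))).map
    fun g => P.wg n cs (n + 1 + g)
  outputs := outs.map (P.lc n) ++ [n + 1 + P.ri]

end Prg

section

variable {P : Prg} {n : ℕ} {cs : List (ℕ × ℕ × ℕ)} {outs : List ℕ} {B : Basis}

theorem wg_block {j q u : ℕ} (hq : q < 3) (hu : u < P.ns.length) :
    P.wg n cs (P.ks n j + q * P.ns.length + u) = P.cg n (P.ks n j + q * P.ns.length)
      (s1 (cs.getD j (0, 0, 0)).1 q (P.lc n (cs.getD j (0, 0, 0)).2.1)
        (P.lc n (if (cs.getD j (0, 0, 0)).1 = 2 then (cs.getD j (0, 0, 0)).2.1 else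
          (cs.getD j (0, 0, 0)).2.2)) (P.ks n j + P.rn) (P.ks n j + P.ns.length + P.rn))
      (s2 (cs.getD j (0, 0, 0)).1 q (P.lc n (cs.getD j (0, 0, 0)).2.1)
        (P.lc n (if (cs.getD j (0, 0, 0)).1 = 2 then (cs.getD j (0, 0, 0)).2.1 else
          (cs.getD j (0, 0, 0)).2.2)) (P.ks n j + P.rn) (P.ks n j + P.ns.length + P.rn)) u := by
  obtain ⟨L, hL⟩ : ∃ L, L = P.ns.length := ⟨_, rfl⟩
  have hp : q * L + u < 3 * L := by
    have : (q + 1) * L ≤ 3 * L := Nat.mul_le_mul_right _ hq
    rw [Nat.succ_mul] at this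
    omega
  have e1 : P.ks n j + q * P.ns.length + u - (n + 1 + P.is.length) =
      (q * L + u) + j * (3 * L) := by
    unfold Prg.ks
    rw [← hL]
    omega
  have e2 : ((q * L + u) + j * (3 * L)) / (3 * L) = j := by
    rw [Nat.add_mul_div_right _ _ (by omega), Nat.div_eq_of_lt hp, zero_add]
  have e3 : ((q * L + u) + j * (3 * L)) % (3 * L) = q * L + u := by
    rw [Nat.add_mul_mod_self_right, Nat.mod_eq_of_lt hp]
  have e4 : (q * L + u) / L = q := by
    rw [add_comm, Nat.add_mul_div_right _ _ (by omega), Nat.div_eq_of_lt (by omega), zero_add]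
  have e5 : (q * L + u) % L = u := by
    rw [add_comm, Nat.add_mul_mod_self_right, Nat.mod_eq_of_lt (by omega)]
  unfold Prg.wg
  rw [if_neg (by unfold Prg.ks; omega), e1, ← hL, e2, e3]
  unfold Prg.jw
  rw [← hL, e4, e5]

theorem wg_id {i : ℕ} (hi : i < P.is.length) :
    P.wg n cs (n + 1 + i) = ((P.is.getD i (0, [])).1, (P.is.getD i (0, [])).2.map
      fun a => n + a) := by
  unfold Prg.wg
  rw [if_pos (by omega), Nat.add_sub_cancel_left]

theorem ks_succ (j : ℕ) : P.ks n (j + 1) = P.ks n j + 3 * P.ns.length := by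
  unfold Prg.ks; ring

theorem ks_mono {i j : ℕ} (h : i ≤ j) : P.ks n i ≤ P.ks n j := by
  unfold Prg.ks
  have := Nat.mul_le_mul_right (3 * P.ns.length) h
  omega

theorem ks_ge (j : ℕ) : n + 1 + P.is.length ≤ P.ks n j := by unfold Prg.ks; omega

theorem ks_len (g : ℕ) : n + 1 + (P.is.length + g * (3 * P.ns.length)) = P.ks n g := by
  unfold Prg.ks; omega

theorem lc_lt (h0 : P.rn < P.ns.length) {i j : ℕ} (h : i < n + j) : P.lc n i < P.ks n j := by
  have := ks_ge (P := P) (n := n) j
  unfold Prg.lc
  split_ifs with h1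
  · omega
  · have h2 := ks_mono (P := P) (n := n) (show i - n + 1 ≤ j by omega)
    rw [ks_succ] at h2
    omega

theorem exists_wblk {i g : ℕ} (h0 : 0 < P.ns.length) (h1 : n + 1 + P.is.length ≤ i)
    (h2 : i < P.ks n g) :
    ∃ j q u, j < g ∧ q < 3 ∧ u < P.ns.length ∧ i = P.ks n j + q * P.ns.length + u := by
  obtain ⟨L, hL⟩ : ∃ L, L = P.ns.length := ⟨_, rfl⟩
  rw [← hL] at h0 ⊢
  refine ⟨(i - (n + 1 + P.is.length)) / (3 * L), (i - (n + 1 + P.is.length)) % (3 * L) / L,
    (i - (n + 1 + P.is.length)) % (3 * L) % L, ?_, ?_, Nat.mod_lt _ h0, ?_⟩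
  · rw [Nat.div_lt_iff_lt_mul (by omega)]
    unfold Prg.ks at h2
    rw [← hL] at h2
    omega
  · rw [Nat.div_lt_iff_lt_mul h0]
    exact Nat.mod_lt _ (by omega)
  · have e1 := Nat.div_add_mod' (i - (n + 1 + P.is.length)) (3 * L)
    have e2 := Nat.div_add_mod' ((i - (n + 1 + P.is.length)) % (3 * L)) L
    unfold Prg.ks
    rw [← hL]
    omega

theorem wcirc_gate {i : ℕ} (h1 : n + 1 ≤ i) (h2 : i < P.ks n cs.length) :
    (P.wcirc n cs outs).gates[i - (n + 1)]? = some (P.wg n cs i) := by
  rw [← ks_len] at h2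
  unfold Prg.wcirc
  simp only
  rw [List.getElem?_map, List.getElem?_range (by omega)]
  simp only [Option.map_some, Option.some.injEq]
  congr 1
  omega

/-- the codes are well formed -/
def OkC (n : ℕ) (cs : List (ℕ × ℕ × ℕ)) : Prop :=
  ∀ j < cs.length, (cs.getD j (0, 0, 0)).2.1 < n + j ∧
    (if (cs.getD j (0, 0, 0)).1 = 2 then (cs.getD j (0, 0, 0)).2.1 else
      (cs.getD j (0, 0, 0)).2.2) < n + j

theorem s1_lt {k q a b N1 N2 K L : ℕ} (hq : q < 3) (ha : a < K) (hb : b < K)
    (h1 : N1 < K + L) (h2 : N2 < K + 2 * L) : s1 k q a b N1 N2 < K + q * L := by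
  unfold s1
  obtain rfl | rfl | rfl : q = 0 ∨ q = 1 ∨ q = 2 := by omega
  all_goals simp only [OfNat.ofNat_ne_zero, OfNat.ofNat_ne_one, one_ne_zero, if_true, if_false]
  · omega
  · split_ifs <;> omega
  · omega

theorem s2_lt {k q a b N1 N2 K L : ℕ} (hq : q < 3) (ha : a < K) (hb : b < K)
    (h1 : N1 < K + L) (h2 : N2 < K + 2 * L) : s2 k q a b N1 N2 < K + q * L := by
  unfold s2
  obtain rfl | rfl | rfl : q = 0 ∨ q = 1 ∨ q = 2 := by omega
  all_goals simp only [OfNat.ofNat_ne_zero, OfNat.ofNat_ne_one, one_ne_zero, if_true, if_false]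
  · split_ifs <;> omega
  · split_ifs <;> omega
  · split_ifs <;> omega

theorem wg_ok (hP : P.Ok B) (hc : OkC n cs) {i : ℕ} (h1 : n + 1 ≤ i)
    (h2 : i < P.ks n cs.length) : (P.wg n cs i).1 < B.length ∧
      (P.wg n cs i).2.length = (B.getD (P.wg n cs i).1 (0, [])).1 ∧
      ∀ a ∈ (P.wg n cs i).2, a < i := by
  have hn := hP.hn
  by_cases c1 : i < n + 1 + P.is.length
  · obtain ⟨u, rfl⟩ : ∃ u, i = n + 1 + u := ⟨i - (n + 1), by omega⟩
    have hu : u < P.is.length := by omega
    obtain ⟨g1, g2, g3⟩ := hP.vi u _ (List.getElem?_eq_getElem hu)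
    rw [wg_id hu, List.getD_eq_getElem _ _ hu]
    refine ⟨g1, by simpa using g2, fun a ha => ?_⟩
    obtain ⟨a, ha', rfl⟩ := List.mem_map.1 ha
    have := g3 a ha'
    omega
  · obtain ⟨j, q, u, hj, hq, hu, rfl⟩ := exists_wblk (P := P) (n := n) (by omega) (by omega) h2
    obtain ⟨g1, g2, g3⟩ := hP.vn u _ (List.getElem?_eq_getElem hu)
    obtain ⟨c2, c3⟩ := hc j hj
    have l1 := lc_lt hn c2
    have l2 := lc_lt hn c3
    rw [wg_block hq hu]
    unfold Prg.cg
    rw [List.getD_eq_getElem _ _ hu]
    refine ⟨g1, by simpa using g2, fun a ha => ?_⟩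
    obtain ⟨a, ha', rfl⟩ := List.mem_map.1 ha
    have h3 := g3 a ha'
    clear ha
    have hK := ks_ge (P := P) (n := n) j
    have t1 := s1_lt (k := (cs.getD j (0, 0, 0)).1) hq l1 l2
      (show P.ks n j + P.rn < P.ks n j + P.ns.length by omega)
      (show P.ks n j + P.ns.length + P.rn < P.ks n j + 2 * P.ns.length by omega)
    have t2 := s2_lt (k := (cs.getD j (0, 0, 0)).1) hq l1 l2
      (show P.ks n j + P.rn < P.ks n j + P.ns.length by omega)
      (show P.ks n j + P.ns.length + P.rn < P.ks n j + 2 * P.ns.length by omega)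
    generalize (s1 (cs.getD j (0, 0, 0)).1 q (P.lc n (cs.getD j (0, 0, 0)).2.1)
        (P.lc n (if (cs.getD j (0, 0, 0)).1 = 2 then (cs.getD j (0, 0, 0)).2.1 else
          (cs.getD j (0, 0, 0)).2.2)) (P.ks n j + P.rn) (P.ks n j + P.ns.length + P.rn)) = r1
      at t1 ⊢
    generalize (s2 (cs.getD j (0, 0, 0)).1 q (P.lc n (cs.getD j (0, 0, 0)).2.1)
        (P.lc n (if (cs.getD j (0, 0, 0)).1 = 2 then (cs.getD j (0, 0, 0)).2.1 else
          (cs.getD j (0, 0, 0)).2.2)) (P.ks n j + P.rn) (P.ks n j + P.ns.length + P.rn)) = r2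
      at t2 ⊢
    unfold rho
    split_ifs <;> omega

theorem wcirc_vg (hP : P.Ok B) (hc : OkC n cs) : VG B (n + 1) (P.wcirc n cs outs).gates := by
  intro i g hg
  have hi : i < P.is.length + cs.length * (3 * P.ns.length) := by
    have := (List.getElem?_eq_some_iff.1 hg).1
    simpa [Prg.wcirc] using this
  have hlen := ks_len (P := P) (n := n) cs.length
  have := wcirc_gate (P := P) (n := n) (cs := cs) (outs := outs) (i := n + 1 + i) (by omega)
    (by omega)
  rw [Nat.add_sub_cancel_left, hg] at this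
  have hgg : g = P.wg n cs (n + 1 + i) := by simpa using this
  rw [hgg]
  exact wg_ok hP hc (by omega) (by omega)

theorem wcirc_valid (hP : P.Ok B) (hc : OkC n cs)
    (hout : ∀ q ∈ outs, n ≤ q ∧ q < n + cs.length) : (P.wcirc n cs outs).Valid B := by
  refine ⟨wcirc_vg hP hc, fun q hq => ?_⟩
  have hi := hP.hi
  have h3 : (P.wcirc n cs outs).gates.length = P.is.length + cs.length * (3 * P.ns.length) := by
    simp [Prg.wcirc]
  rw [h3]
  change n + 1 ≤ q ∧ q < n + 1 + _
  unfold Prg.wcirc at hq
  simp only [List.mem_append, List.mem_map, List.mem_singleton] at hq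
  rcases hq with ⟨q, hq, rfl⟩ | rfl
  · obtain ⟨h1, h2⟩ := hout q hq
    rw [ks_len]
    refine ⟨?_, lc_lt hP.hn h2⟩
    unfold Prg.lc
    rw [if_neg (by omega)]
    have := ks_ge (P := P) (n := n) (q - n)
    omega
  · omega

/-- the equations of the nodes -/
theorem wcirc_eq (hP : P.Ok B) (hc : OkC n cs) {x : List Bool} (hx : x.length = n + 1) {i : ℕ}
    (h1 : n + 1 ≤ i) (h2 : i < P.ks n cs.length) :
    (brun B (P.wcirc n cs outs).gates x).getD i false =
      gval B (brun B (P.wcirc n cs outs).gates x) (P.wg n cs i) := by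
  have := brun_getD_gate (wcirc_vg hP hc) hx (wcirc_gate (outs := outs) h1 h2)
  have e : n + 1 + (i - (n + 1)) = i := by omega
  rwa [e] at this

/-- the copy of the additional input -/
theorem w_zero (hP : P.Ok B) (hc : OkC n cs) {x : List Bool} (hx : x.length = n + 1) :
    (brun B (P.wcirc n cs outs).gates x).getD (n + 1 + P.ri) false = x.getD n false := by
  obtain ⟨v, hv⟩ : ∃ v, v = brun B (P.wcirc n cs outs).gates x := ⟨_, rfl⟩
  have hl := ks_ge (P := P) (n := n) cs.length
  have hi := hP.hi
  have key := bcopy_sem hP.vi (x := [x.getD n false]) rfl (w := fun j => v.getD j false)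
    (τ := fun a => n + a) (by
      intro j hj
      obtain rfl : j = 0 := by omega
      rw [hv, brun_getD_lt (by omega)]
      rfl) (by
      intro i hi
      have h := wcirc_eq (outs := outs) hP hc hx (i := n + 1 + i) (by omega) (by omega)
      rw [← hv, wg_id hi] at h
      rw [show n + (1 + i) = n + 1 + i by omega, h]
      unfold gval
      simp only [List.map_map]
      rfl)
  have := key (1 + P.ri) (by omega)
  rw [hP.si, show n + (1 + P.ri) = n + 1 + P.ri by omega] at this
  rw [← hv, this]

/-- the copies of NAND -/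
theorem w_nand (hP : P.Ok B) (hc : OkC n cs) {x : List Bool} (hx : x.length = n + 1)
    (hz : x.getD n false = false) {j q : ℕ} (hj : j < cs.length) (hq : q < 3) :
    (brun B (P.wcirc n cs outs).gates x).getD (P.ks n j + q * P.ns.length + P.rn) false =
      !((brun B (P.wcirc n cs outs).gates x).getD (s1 (cs.getD j (0, 0, 0)).1 q
        (P.lc n (cs.getD j (0, 0, 0)).2.1)
        (P.lc n (if (cs.getD j (0, 0, 0)).1 = 2 then (cs.getD j (0, 0, 0)).2.1 else
          (cs.getD j (0, 0, 0)).2.2)) (P.ks n j + P.rn) (P.ks n j + P.ns.length + P.rn)) false &&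
      (brun B (P.wcirc n cs outs).gates x).getD (s2 (cs.getD j (0, 0, 0)).1 q
        (P.lc n (cs.getD j (0, 0, 0)).2.1)
        (P.lc n (if (cs.getD j (0, 0, 0)).1 = 2 then (cs.getD j (0, 0, 0)).2.1 else
          (cs.getD j (0, 0, 0)).2.2)) (P.ks n j + P.rn) (P.ks n j + P.ns.length + P.rn)) false) := by
  obtain ⟨v, hv⟩ : ∃ v, v = brun B (P.wcirc n cs outs).gates x := ⟨_, rfl⟩
  have hblk := fun u (hu : u < P.ns.length) =>
    wg_block (P := P) (n := n) (cs := cs) (j := j) hq hu
  generalize (s1 (cs.getD j (0, 0, 0)).1 q (P.lc n (cs.getD j (0, 0, 0)).2.1)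
        (P.lc n (if (cs.getD j (0, 0, 0)).1 = 2 then (cs.getD j (0, 0, 0)).2.1 else
          (cs.getD j (0, 0, 0)).2.2)) (P.ks n j + P.rn) (P.ks n j + P.ns.length + P.rn)) = r1
    at hblk ⊢
  generalize (s2 (cs.getD j (0, 0, 0)).1 q (P.lc n (cs.getD j (0, 0, 0)).2.1)
        (P.lc n (if (cs.getD j (0, 0, 0)).1 = 2 then (cs.getD j (0, 0, 0)).2.1 else
          (cs.getD j (0, 0, 0)).2.2)) (P.ks n j + P.rn) (P.ks n j + P.ns.length + P.rn)) = r2
    at hblk ⊢
  have hn := hP.hn
  have hK := ks_ge (P := P) (n := n) j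
  have hlen := ks_mono (P := P) (n := n) (show j + 1 ≤ cs.length from hj)
  rw [ks_succ] at hlen
  have hqL : (q + 1) * P.ns.length ≤ 3 * P.ns.length := Nat.mul_le_mul_right _ hq
  rw [Nat.succ_mul] at hqL
  rw [← hv]
  have key := bcopy_sem hP.vn (x := [v.getD r1 false, v.getD r2 false, false]) rfl
    (w := fun j => v.getD j false) (τ := rho n (P.ks n j + q * P.ns.length) r1 r2) (by
      intro a ha
      have h2 : v.getD n false = false := by
        rw [hv, brun_getD_lt (by omega), hz]
      obtain rfl | rfl | rfl : a = 0 ∨ a = 1 ∨ a = 2 := by omega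
      · rfl
      · rfl
      · exact h2) (by
      intro i hi
      have h := wcirc_eq (outs := outs) hP hc hx (i := P.ks n j + q * P.ns.length + i) (by omega)
        (by omega)
      rw [← hv, hblk i hi] at h
      have e : rho n (P.ks n j + q * P.ns.length) r1 r2 (3 + i) =
          P.ks n j + q * P.ns.length + i := by
        unfold rho
        rw [if_neg (by omega), if_neg (by omega), if_neg (by omega), Nat.add_sub_cancel_left]
      rw [e, h]
      unfold gval Prg.cg
      simp only [List.map_map]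
      rfl)
  have := key (3 + P.rn) (by omega)
  have e : rho n (P.ks n j + q * P.ns.length) r1 r2 (3 + P.rn) =
      P.ks n j + q * P.ns.length + P.rn := by
    unfold rho
    rw [if_neg (by omega), if_neg (by omega), if_neg (by omega), Nat.add_sub_cancel_left]
  rw [hP.sn, e] at this
  exact this

/-- the value of a block -/
theorem w_out (hP : P.Ok B) (hc : OkC n cs) {x : List Bool} (hx : x.length = n + 1)
    (hz : x.getD n false = false) {j : ℕ} (hj : j < cs.length) :
    (brun B (P.wcirc n cs outs).gates x).getD (P.lc n (n + j)) false =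
      gv (fun i => (brun B (P.wcirc n cs outs).gates x).getD i false)
        (cv (P.lc n) (cs.getD j (0, 0, 0))) := by
  have h0 := w_nand (outs := outs) hP hc hx hz hj (q := 0) (by omega)
  have h1 := w_nand (outs := outs) hP hc hx hz hj (q := 1) (by omega)
  have h2 := w_nand (outs := outs) hP hc hx hz hj (q := 2) (by omega)
  obtain ⟨v, hv⟩ : ∃ v, v = brun B (P.wcirc n cs outs).gates x := ⟨_, rfl⟩
  rw [← hv] at h0 h1 h2 ⊢
  have e : P.lc n (n + j) = P.ks n j + 2 * P.ns.length + P.rn := by
    unfold Prg.lc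
    rw [if_neg (by omega), Nat.add_sub_cancel_left]
  rw [e]
  unfold gv cv
  simp only
  rw [zero_mul, add_zero] at h0
  rw [one_mul] at h1
  generalize P.lc n (if (cs.getD j (0, 0, 0)).1 = 2 then (cs.getD j (0, 0, 0)).2.1 else
          (cs.getD j (0, 0, 0)).2.2) = b at h0 h1 h2 ⊢
  generalize P.lc n (cs.getD j (0, 0, 0)).2.1 = a at h0 h1 h2 ⊢
  generalize (cs.getD j (0, 0, 0)).1 = k at h0 h1 h2 ⊢
  rw [h2]
  unfold s1 s2 at h0 h1 ⊢
  simp only [OfNat.ofNat_ne_zero, OfNat.ofNat_ne_one, one_ne_zero, if_true, if_false] at h0 h1 ⊢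
  unfold ktt
  by_cases k0 : k = 0
  · simp only [if_pos k0] at h0 h1 ⊢
    rw [h1, h0]
    cases v.getD a false <;> cases v.getD b false <;> rfl
  · by_cases k1 : k = 1
    · simp only [if_neg k0, if_pos k1] at h0 h1 ⊢
      rw [h1, h0]
      cases v.getD a false <;> cases v.getD b false <;> rfl
    · simp only [if_neg k0, if_neg k1] at h0 h1 ⊢
      rw [h1, h0]
      cases v.getD a false <;> cases v.getD b false <;> rfl

end

/-! ### The reduction -/

theorem okC_codes {C : Circuit} (hC : C.Valid) : OkC C.inputs (codes C) := by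
  intro j hj
  rw [codes_length] at hj
  have hg : C.gates[j]? = some C.gates[j] := List.getElem?_eq_getElem hj
  rw [codes_getD hg]
  have h := hC.1 j _ hg
  revert h
  generalize C.gates[j] = g
  intro h
  cases g with
  | and a b =>
    have h1 := h a (by simp [Gate.reads])
    have h2 := h b (by simp [Gate.reads])
    simpa [Gate.code] using ⟨h1, h2⟩
  | or a b =>
    have h1 := h a (by simp [Gate.reads])
    have h2 := h b (by simp [Gate.reads])
    simpa [Gate.code] using ⟨h1, h2⟩
  | not a =>
    have h1 := h a (by simp [Gate.reads])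
    simpa [Gate.code] using h1

theorem wcirc_eval {P : Prg} {B : Basis} (hP : P.Ok B) {C : Circuit} (hC : C.Valid)
    {x : List Bool} (hx : x.length = C.inputs + 1) (hz : x.getD C.inputs false = false) :
    (P.wcirc C.inputs (codes C) C.outputs).eval B x = C.eval (x.take C.inputs) ++ [false] := by
  have hc := okC_codes hC
  have hl := codes_length C
  obtain ⟨v, hv⟩ : ∃ v, v = brun B (P.wcirc C.inputs (codes C) C.outputs).gates x := ⟨_, rfl⟩
  have hz' := w_zero (outs := C.outputs) hP hc hx
  rw [← hv, hz] at hz'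
  have key := copy_sem hC (x := x.take C.inputs) (by simp [hx])
    (w := fun j => v.getD j false) (τ := P.lc C.inputs) (by
      intro j hj
      unfold Prg.lc
      rw [if_pos hj, hv, brun_getD_lt (by omega), List.getD_eq_getElem?_getD,
        List.getD_eq_getElem?_getD, List.getElem?_take_of_lt hj]) (by
      intro i hi
      have h := w_out (outs := C.outputs) hP hc hx hz (j := i) (by omega)
      rw [← hv] at h
      exact h)
  have e : (P.wcirc C.inputs (codes C) C.outputs).eval B x =
      (C.outputs.map (P.lc C.inputs) ++ [C.inputs + 1 + P.ri]).map fun o => v.getD o false := by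
    rw [hv]; rfl
  rw [e, List.map_append, List.map_map]
  simp only [List.map_cons, List.map_nil]
  rw [hz']
  congr 1
  unfold Circuit.eval
  refine List.map_congr_left fun q hq => ?_
  exact key q (hC.2 q hq).2

theorem wcirc_eval_last {P : Prg} {B : Basis} (hP : P.Ok B) {C : Circuit} (hC : C.Valid)
    {x : List Bool} (hx : x.length = C.inputs + 1) :
    ∃ l : List Bool, l.length = C.outputs.length ∧
      (P.wcirc C.inputs (codes C) C.outputs).eval B x = l ++ [x.getD C.inputs false] := by
  have hz' := w_zero (outs := C.outputs) hP (okC_codes hC) hx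
  obtain ⟨v, hv⟩ : ∃ v, v = brun B (P.wcirc C.inputs (codes C) C.outputs).gates x := ⟨_, rfl⟩
  rw [← hv] at hz'
  have e : (P.wcirc C.inputs (codes C) C.outputs).eval B x =
      (C.outputs.map (P.lc C.inputs) ++ [C.inputs + 1 + P.ri]).map fun o => v.getD o false := by
    rw [hv]; rfl
  refine ⟨(C.outputs.map (P.lc C.inputs)).map fun o => v.getD o false, by simp, ?_⟩
  rw [e, List.map_append]
  simp only [List.map_cons, List.map_nil]
  rw [hz']

theorem cost_lt (l : List Bool) : cost l < 2 ^ (l.length + 1) := by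
  have h := cost_reverse l.reverse
  rw [List.reverse_reverse] at h
  have h2 := mv_lt l.reverse
  rw [List.length_reverse] at h2
  rw [h, pow_succ]
  omega

section poly

variable {α : Type} [TEnc α]

theorem poly_s1 {k q a b N1 N2 : α → ℕ} (hk : Poly k) (hq : Poly q) (ha : Poly a) (hb : Poly b)
    (h1 : Poly N1) (h2 : Poly N2) :
    Poly (fun x => s1 (k x) (q x) (a x) (b x) (N1 x) (N2 x)) := by
  unfold s1
  exact Poly.ite (by fun_prop) ha (Poly.ite (by fun_prop) (Poly.ite (by fun_prop) ha
    (Poly.ite (by fun_prop) hb h1)) h2)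

theorem poly_s2 {k q a b N1 N2 : α → ℕ} (hk : Poly k) (hq : Poly q) (ha : Poly a) (hb : Poly b)
    (h1 : Poly N1) (h2 : Poly N2) :
    Poly (fun x => s2 (k x) (q x) (a x) (b x) (N1 x) (N2 x)) := by
  unfold s2
  exact Poly.ite (by fun_prop) (Poly.ite (by fun_prop) hb ha) (Poly.ite (by fun_prop)
    (Poly.ite (by fun_prop) hb (Poly.ite (by fun_prop) hb h1)) (Poly.ite (by fun_prop) h1
    (Poly.ite (by fun_prop) h1 h2)))

theorem poly_rho {n K r1 r2 a : α → ℕ} (hn : Poly n) (hK : Poly K) (h1 : Poly r1)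
    (h2 : Poly r2) (ha : Poly a) :
    Poly (fun x => rho (n x) (K x) (r1 x) (r2 x) (a x)) := by
  unfold rho
  exact Poly.ite (by fun_prop) h1 (Poly.ite (by fun_prop) h2 (Poly.ite (by fun_prop) hn
    (by fun_prop)))

theorem poly_ks (P : Prg) {n j : α → ℕ} (hn : Poly n) (hj : Poly j) :
    Poly (fun a => P.ks (n a) (j a)) := by
  unfold Prg.ks
  fun_prop

theorem poly_lc (P : Prg) {n i : α → ℕ} (hn : Poly n) (hi : Poly i) :
    Poly (fun a => P.lc (n a) (i a)) := by
  unfold Prg.lc
  exact Poly.ite (by fun_prop) hi (Poly.add (Poly.add (poly_ks P hn (by fun_prop))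
    (NPC.Poly.const _)) (NPC.Poly.const _))

theorem poly_cg (P : Prg) {n K r1 r2 u : α → ℕ} (hn : Poly n) (hK : Poly K) (h1 : Poly r1)
    (h2 : Poly r2) (hu : Poly u) :
    Poly (fun a => P.cg (n a) (K a) (r1 a) (r2 a) (u a)) := by
  unfold Prg.cg
  have hg : Poly (fun a => P.ns.getD (u a) (0, [])) :=
    Poly.getD (NPC.Poly.const _) hu (NPC.Poly.const _)
  refine Poly.pair (Poly.fst hg) ?_
  refine NPC.Poly.map (F := fun a i => rho (n a) (K a) (r1 a) (r2 a) i) (Poly.snd hg) ?_
  exact poly_rho (by fun_prop) (by fun_prop) (by fun_prop) (by fun_prop) (by fun_prop)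

theorem poly_jw (P : Prg) {n K p : α → ℕ} {c : α → ℕ × ℕ × ℕ} (hn : Poly n) (hc : Poly c)
    (hK : Poly K) (hp : Poly p) : Poly (fun a => P.jw (n a) (c a) (K a) (p a)) := by
  unfold Prg.jw
  have h1 : Poly (fun a => P.lc (n a) (c a).2.1) := poly_lc P hn (by fun_prop)
  have h2 : Poly (fun a => P.lc (n a) (if (c a).1 = 2 then (c a).2.1 else (c a).2.2)) :=
    poly_lc P hn (Poly.ite (by fun_prop) (by fun_prop) (by fun_prop))
  have h3 : Poly (fun a => p a / P.ns.length) := Poly.div hp (NPC.Poly.const _)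
  refine poly_cg P hn (by fun_prop) (poly_s1 (by fun_prop) h3 h1 h2 (by fun_prop) (by fun_prop))
    (poly_s2 (by fun_prop) h3 h1 h2 (by fun_prop) (by fun_prop))
    (Poly.mod hp (NPC.Poly.const _))

theorem poly_wg (P : Prg) {n i : α → ℕ} {cs : α → List (ℕ × ℕ × ℕ)} (hn : Poly n)
    (hc : Poly cs) (hi : Poly i) : Poly (fun a => P.wg (n a) (cs a) (i a)) := by
  unfold Prg.wg
  have hj : Poly (fun a => (i a - (n a + 1 + P.is.length)) / (3 * P.ns.length)) :=
    Poly.div (by fun_prop) (NPC.Poly.const _)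
  have hg : Poly (fun a => P.is.getD (i a - (n a + 1)) (0, [])) :=
    Poly.getD (NPC.Poly.const _) (by fun_prop) (NPC.Poly.const _)
  refine Poly.ite (by fun_prop) (Poly.pair (Poly.fst hg) ?_) ?_
  · exact NPC.Poly.map (F := fun a j => n a + j) (Poly.snd hg) (by fun_prop)
  · exact poly_jw P hn (Poly.getD hc hj (NPC.Poly.const _)) (poly_ks P hn hj)
      (Poly.mod (by fun_prop) (NPC.Poly.const _))

theorem poly_wcirc (P : Prg) {n : α → ℕ} {cs : α → List (ℕ × ℕ × ℕ)} {q : α → List ℕ}
    (hn : UPoly n) (hc : Poly cs) (hq : Poly q) :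
    Poly (fun a => P.wcirc (n a) (cs a) (q a)) := by
  have hN : UPoly (fun a => P.is.length + (cs a).length * (3 * P.ns.length)) :=
    (UPoly.const _).add ((UPoly.length hc).mul (UPoly.const _))
  have hn0 := hn.toPoly
  have h1 : Poly (fun a => (List.range (P.is.length + (cs a).length * (3 * P.ns.length))).map
      fun g => P.wg (n a) (cs a) (n a + 1 + g)) := by
    refine NPC.Poly.map (F := fun a g => P.wg (n a) (cs a) (n a + 1 + g)) hN.range ?_
    exact poly_wg P (by fun_prop) (by fun_prop) (by fun_prop)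
  have h2 : Poly (fun a => (q a).map (P.lc (n a)) ++ [n a + 1 + P.ri]) := by
    refine Poly.append (NPC.Poly.map (F := fun a j => P.lc (n a) j) hq ?_) (by fun_prop)
    exact poly_lc P (by fun_prop) (by fun_prop)
  have h3 : Poly (fun a => List.replicate (n a + 1) ()) := hn.add (UPoly.const 1)
  exact Poly.of_toT ((Poly.toT' (Poly.pair h3 (Poly.pair h1 h2))).congr fun _ => rfl)

end poly

/-- Circuit-FLIP reduces to circuits over a set of gates. -/
theorem lowerB {B : Basis} {P : Prg} (hP : P.Ok B) (h : BFlip B) : CircuitFlip := by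
  refine Solvable.of_red toT_cdata h
    (red := fun c => P.wcirc c.1.length c.2.1 c.2.2)
    (post := fun c y => (List.range c.1.length).map fun i => y.getD i false) ?_ ?_ ?_ ?_
  · exact poly_wcirc P (UPoly.length (by fun_prop)) (by fun_prop) (by fun_prop)
  · refine NPC.Poly.map (F := fun (p : CData × List Bool) i => p.2.getD i false)
      (UPoly.length (by fun_prop)).range (by fun_prop)
  · intro C hC
    unfold cdata
    simp only [List.length_replicate]
    refine wcirc_valid hP (okC_codes hC) ?_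
    rw [codes_length]
    exact hC.2
  · intro C hC y hy
    unfold cdata at hy ⊢
    simp only [List.length_replicate] at hy ⊢
    have hyl : y.length = C.inputs + 1 := hy.1
    have e : ((List.range C.inputs).map fun i => y.getD i false) = y.take C.inputs := by
      refine List.ext_getElem (by simp [hyl]) fun i h1 h2 => ?_
      have hi : i < C.inputs := by simpa using h1
      rw [List.getElem_map, List.getElem_range, List.getElem_take,
        List.getD_eq_getElem _ _ (by omega)]
    -- the additional input is zero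
    have hz : y.getD C.inputs false = false := by
      by_contra hcon
      have h1 : y.getD C.inputs false = true := by simpa using hcon
      have h2 := hy.2 C.inputs (show C.inputs < C.inputs + 1 by omega)
      obtain ⟨l, hl, el⟩ := wcirc_eval_last hP hC hyl
      obtain ⟨l', hl', el'⟩ := wcirc_eval_last hP hC (x := y.modify C.inputs not)
        (by simp [hyl])
      rw [el, el', cost_append_one, cost_append_one, h1] at h2
      have h3 : (y.modify C.inputs not).getD C.inputs false = false := by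
        rw [getD_modify (by omega), if_pos rfl, h1]
        rfl
      rw [h3] at h2
      have h4 := cost_lt l'
      rw [hl'] at h4
      rw [hl, hl'] at h2
      simp only [Bool.toNat_true, Bool.toNat_false] at h2
      omega
    rw [e]
    refine ⟨by simp [hyl], fun i hi => ?_⟩
    have h1 := hy.2 i (show i < C.inputs + 1 by omega)
    have hz2 : (y.modify i not).getD C.inputs false = false := by
      rw [getD_modify (by omega), if_neg (by omega)]
      exact hz
    rw [wcirc_eval hP hC hyl hz, wcirc_eval hP hC (by simp [hyl]) hz2, cost_append_one,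
      cost_append_one] at h1
    have e2 : (y.modify i not).take C.inputs = (y.take C.inputs).modify i not := by
      refine List.ext_getElem? fun j => ?_
      by_cases hj : j < C.inputs
      · rw [List.getElem?_take_of_lt hj, List.getElem?_modify, List.getElem?_modify,
          List.getElem?_take_of_lt hj]
      · rw [List.getElem?_eq_none (by simp; omega), List.getElem?_eq_none (by simp; omega)]
    rw [e2] at h1
    simpa using h1

/-- The dichotomy. -/
theorem dichotomy {B : Basis} (hB : B.Ok) :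
    ((B.Zero ∨ B.Mono ∨ B.Affine) → BFlip B) ∧
    (¬ (B.Zero ∨ B.Mono ∨ B.Affine) → (BFlip B ↔ CircuitFlip)) := by
  constructor
  · rintro (h | h | h)
    · exact easy_zero h
    · exact easy_mono h
    · exact easy_affine h
  · intro h
    push Not at h
    obtain ⟨h1, h2, h3⟩ := h
    obtain ⟨gs, r, i1, i2, i3⟩ := id_prog h1 h2
    obtain ⟨gs', r', j1, j2, j3⟩ := nand_prog h1 h2 h3
    exact ⟨fun h => lowerB (P := ⟨gs, gs', r, r'⟩) ⟨i1, i2, i3, j1, j2, j3⟩ h, upperB hB⟩

end Pool.Agent.Helper80K5
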