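import Pool.Agent.Helper80K5.Easy

/-!
# Post's criterion, with the constant zero given by an additional input
-/

namespace Pool.Agent.Helper80K5

open Pool.Agent.NPC Pool.Agent.Helper80K4

/-- the functions of `k` arguments which are computed by circuits over `B` -/
inductive Clo (B : Basis) (k : ℕ) : (List Bool → Bool) → Prop
  | var (i : ℕ) : i < k → Clo B k (fun x => x.getD i false)
  | app (f : ℕ) (Fs : List (List Bool → Bool)) : f < B.length →
      Fs.length = (B.getD f (0, [])).1 → (∀ F ∈ Fs, Clo B k F) →
      Clo B k (fun x => (B.getD f (0, [])).val (Fs.map fun F => F x))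

variable {B : Basis}

/-! ### Straight-line programs -/

/-- a list of gates is extended such that a node computes `F` -/
def Prog (B : Basis) (k : ℕ) (F : List Bool → Bool) : Prop :=
  ∀ gs, VG B k gs → ∃ gs' r, VG B k (gs ++ gs') ∧ r < k + (gs ++ gs').length ∧
    ∀ x : List Bool, x.length = k → (brun B (gs ++ gs') x).getD r false = F x

theorem vg_append_one {k : ℕ} {gs : List (ℕ × List ℕ)} (h : VG B k gs) {g : ℕ × List ℕ}
    (h1 : g.1 < B.length) (h2 : g.2.length = (B.getD g.1 (0, [])).1)
    (h3 : ∀ a ∈ g.2, a < k + gs.length) : VG B k (gs ++ [g]) := by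
  intro i g' hg'
  rcases lt_trichotomy i gs.length with hi | hi | hi
  · rw [List.getElem?_append_left hi] at hg'
    exact h i g' hg'
  · subst hi
    rw [List.getElem?_append_right le_rfl] at hg'
    simp only [Nat.sub_self, List.getElem?_cons_zero, Option.some.injEq] at hg'
    subst hg'
    exact ⟨h1, h2, h3⟩
  · rw [List.getElem?_eq_none (by simp; omega)] at hg'
    simp at hg'

theorem brun_ext {k : ℕ} {gs gs' : List (ℕ × List ℕ)} {x : List Bool} (hx : x.length = k) {r : ℕ}
    (hr : r < k + gs.length) : (brun B (gs ++ gs') x).getD r false = (brun B gs x).getD r false := by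
  rw [brun_append]
  exact brun_getD_lt (by rw [brun_length]; omega)

/-- programs for a list of functions -/
theorem progs {k : ℕ} (Fs : List (List Bool → Bool)) (h : ∀ F ∈ Fs, Prog B k F)
    (gs : List (ℕ × List ℕ)) (hgs : VG B k gs) :
    ∃ gs' : List (ℕ × List ℕ), ∃ rs : List ℕ, VG B k (gs ++ gs') ∧
      (∀ r ∈ rs, r < k + (gs ++ gs').length) ∧ rs.length = Fs.length ∧
      ∀ x : List Bool, x.length = k →
        (rs.map fun r => (brun B (gs ++ gs') x).getD r false) = Fs.map fun F => F x := by
  induction Fs generalizing gs with
  | nil => exact ⟨[], [], by simpa using hgs, by simp, rfl, by simp⟩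
  | cons F Fs ih =>
    obtain ⟨g1, r, h1, h2, h3⟩ := h F List.mem_cons_self gs hgs
    obtain ⟨g2, rs, i1, i2, i3, i4⟩ := ih (fun F hF => h F (List.mem_cons_of_mem _ hF)) _ h1
    refine ⟨g1 ++ g2, r :: rs, by rw [← List.append_assoc]; exact i1, ?_, by simp [i3], ?_⟩
    · intro r' hr'
      rw [← List.append_assoc]
      rcases List.mem_cons.1 hr' with rfl | hr'
      · rw [List.length_append]; omega
      · exact i2 r' hr'
    · intro x hx
      rw [← List.append_assoc, List.map_cons, List.map_cons, i4 x hx, brun_ext hx h2, h3 x hx]

theorem prog_app {k f : ℕ} {Fs : List (List Bool → Bool)} (hf : f < B.length)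
    (hl : Fs.length = (B.getD f (0, [])).1) (h : ∀ F ∈ Fs, Prog B k F)
    (gs : List (ℕ × List ℕ)) (hgs : VG B k gs) : ∃ gs' r, VG B k (gs ++ gs') ∧ k ≤ r ∧
      r < k + (gs ++ gs').length ∧ ∀ x : List Bool, x.length = k →
      (brun B (gs ++ gs') x).getD r false = (B.getD f (0, [])).val (Fs.map fun F => F x) := by
  obtain ⟨g1, rs, i1, i2, i3, i4⟩ := progs Fs h gs hgs
  have hv : VG B k ((gs ++ g1) ++ [(f, rs)]) := vg_append_one i1 hf (by rw [i3, hl]) i2
  refine ⟨g1 ++ [(f, rs)], k + (gs ++ g1).length, by rw [← List.append_assoc]; exact hv, by omega,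
    by simp, fun x hx => ?_⟩
  rw [← List.append_assoc, brun_getD_gate hv hx (g := (f, rs)) (by
    rw [List.getElem?_append_right le_rfl]; simp)]
  unfold gval
  simp only
  rw [← i4 x hx]
  congr 1
  refine List.map_congr_left fun r hr => ?_
  exact brun_ext hx (i2 r hr)

theorem prog_of_clo {k : ℕ} {F : List Bool → Bool} (h : Clo B k F) : Prog B k F := by
  induction h with
  | var i hi =>
    intro gs hgs
    exact ⟨[], i, by simpa using hgs, by omega, fun x hx => by
      rw [List.append_nil, brun_getD_lt (by omega)]⟩
  | app f Fs hf hl _ ih =>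
    intro gs hgs
    obtain ⟨gs', r, h1, _, h2, h3⟩ := prog_app hf hl ih gs hgs
    exact ⟨gs', r, h1, h2, h3⟩

theorem vg_nil {k : ℕ} : VG B k [] := by
  intro i g hg
  simp at hg

/-! ### Lists -/

theorem modify_modify (w : List Bool) (i : ℕ) : (w.modify i not).modify i not = w := by
  refine List.ext_getElem? fun j => ?_
  rw [List.getElem?_modify, List.getElem?_modify]
  cases w[j]? with
  | none => rfl
  | some b =>
    by_cases h : i = j
    · simp [h]
    · simp [h]

theorem reach_flips {k : ℕ} (Q : List Bool → Prop) (h0 : Q (List.replicate k false))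
    (h1 : ∀ w : List Bool, w.length = k → ∀ j < k, Q w → Q (w.modify j not)) :
    ∀ w : List Bool, w.length = k → Q w := by
  suffices h : ∀ (c : ℕ) (w : List Bool), w.length = k → w.count true = c → Q w from
    fun w hw => h _ w hw rfl
  intro c
  induction c with
  | zero =>
    intro w hw hc
    have : w = List.replicate k false := by
      rw [List.eq_replicate_iff]
      refine ⟨hw, fun b hb => ?_⟩
      cases b
      · rfl
      · exact absurd hb (List.count_eq_zero.1 hc)
    rw [this]
    exact h0
  | succ c ih =>
    intro w hw hc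
    have hmem : true ∈ w := List.count_pos_iff.1 (by omega)
    obtain ⟨j, hj, hj'⟩ := List.getElem_of_mem hmem
    have e1 : w.modify j not = w.set j false := by
      refine List.ext_getElem? fun i => ?_
      rw [List.getElem?_modify, List.getElem?_set]
      by_cases h : j = i
      · subst h
        rw [List.getElem?_eq_getElem hj, hj']
        simp [hj]
      · simp [h]
    have hcount : (w.modify j not).count true = c := by
      rw [e1, List.count_set hj, hj', hc]
      simp
    have h2 := ih (w.modify j not) (by simpa using hw) hcount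
    have h3 := h1 _ (by simpa using hw) j (by omega) h2
    rwa [modify_modify] at h3

/-! ### Functions that are not monotone -/

/-- the list `w` with the entry `i` replaced -/
def rep (w : List Bool) (i : ℕ) (p : Bool) : List Bool :=
  (List.range w.length).map fun l => if l = i then p else w.getD l false

theorem rep_length (w : List Bool) (i : ℕ) (p : Bool) : (rep w i p).length = w.length := by
  simp [rep]

theorem rep_getElem (w : List Bool) (i : ℕ) (p : Bool) (l : ℕ) (h : l < (rep w i p).length) :
    (rep w i p)[l] = if l = i then p else w.getD l false := by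
  simp only [rep, List.getElem_map, List.getElem_range]

theorem rep_self (w : List Bool) (i : ℕ) : rep w i (w.getD i false) = w := by
  refine List.ext_getElem (rep_length _ _ _) fun l h1 h2 => ?_
  rw [rep_getElem]
  split_ifs with h
  · subst h
    rw [List.getD_eq_getElem _ _ h2]
  · rw [List.getD_eq_getElem _ _ h2]

theorem nonmono {f : Fn} {u v : List Bool} (hu : u.length = f.1) (hv : v.length = f.1)
    (h : ∀ i, u.getD i false = true → v.getD i false = true) (h1 : f.val u = true)
    (h2 : f.val v = false) : ∃ (w : List Bool) (j : ℕ), w.length = f.1 ∧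
      f.val (rep w j false) = true ∧ f.val (rep w j true) = false := by
  -- hybrids
  obtain ⟨H, hH⟩ : ∃ H : ℕ → List Bool, H = fun t => (List.range f.1).map fun l =>
    if l < t then v.getD l false else u.getD l false := ⟨_, rfl⟩
  have hl : ∀ t, (H t).length = f.1 := fun t => by rw [hH]; simp
  have hg : ∀ t l, l < f.1 → (H t).getD l false = if l < t then v.getD l false else
      u.getD l false := by
    intro t l hl
    rw [hH]
    simp only
    rw [getD_map_lt _ _ (by simpa using hl) 0, List.getD_eq_getElem _ _ (by simpa using hl),
      List.getElem_range]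
  have h0 : H 0 = u := by
    refine List.ext_getElem (by rw [hl, hu]) fun l h3 h4 => ?_
    have := hg 0 l (by omega)
    rw [if_neg (by omega), List.getD_eq_getElem _ _ h3, List.getD_eq_getElem _ _ h4] at this
    exact this
  have hn : H f.1 = v := by
    refine List.ext_getElem (by rw [hl, hv]) fun l h3 h4 => ?_
    have := hg f.1 l (by omega)
    rw [if_pos (by omega), List.getD_eq_getElem _ _ h3, List.getD_eq_getElem _ _ h4] at this
    exact this
  obtain ⟨t, ht, ht1, ht2⟩ : ∃ t < f.1, f.val (H t) = true ∧ f.val (H (t + 1)) = false := by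
    by_contra hcon
    push Not at hcon
    have key : ∀ t ≤ f.1, f.val (H t) = true := by
      intro t
      induction t with
      | zero => intro _; rw [h0]; exact h1
      | succ t ih =>
        intro ht
        have := hcon t (by omega) (ih (by omega))
        simpa using this
    have := key f.1 le_rfl
    rw [hn, h2] at this
    exact absurd this (by simp)
  have e1 : ∀ l, l ≠ t → (H (t + 1)).getD l false = (H t).getD l false := by
    intro l hlt
    by_cases hl' : l < f.1
    · rw [hg _ _ hl', hg _ _ hl']
      by_cases h3 : l < t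
      · rw [if_pos h3, if_pos (by omega)]
      · rw [if_neg h3, if_neg (by omega)]
    · rw [List.getD_eq_default _ _ (by rw [hl]; omega), List.getD_eq_default _ _ (by rw [hl]; omega)]
  have e2 : H (t + 1) = rep (H t) t (v.getD t false) := by
    refine List.ext_getElem (by rw [hl]; simp [rep, hl]) fun l h3 h4 => ?_
    rw [rep_getElem]
    split_ifs with h5
    · have := hg (t + 1) l (by rw [← hl (t + 1)]; exact h3)
      rw [if_pos (by omega), List.getD_eq_getElem _ _ h3] at this
      rw [this, h5]
    · have := e1 l h5
      rw [List.getD_eq_getElem _ _ h3] at this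
      exact this
  have e3 : (H t).getD t false = u.getD t false := by rw [hg t t ht, if_neg (by omega)]
  have e4 := rep_self (H t) t
  rw [e3] at e4
  have hvt : v.getD t false = true := by
    by_contra hcon
    have h5 : v.getD t false = false := by simpa using hcon
    have h6 : u.getD t false = false := by
      by_contra h7
      exact hcon (h t (by simpa using h7))
    rw [e2, h5] at ht2
    rw [h6] at e4
    rw [e4, ht1] at ht2
    exact absurd ht2 (by simp)
  have hut : u.getD t false = false := by
    by_contra hcon
    have h7 : u.getD t false = true := by simpa using hcon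
    rw [e2, hvt] at ht2
    rw [h7] at e4
    rw [e4, ht1] at ht2
    exact absurd ht2 (by simp)
  refine ⟨H t, t, hl t, ?_, ?_⟩
  · rw [hut] at e4
    rw [e4]
    exact ht1
  · rw [← hvt, ← e2]
    exact ht2

/-! ### Functions that are not affine -/

theorem par_flip (c : Bool) : ∀ (a u : List Bool) (j : ℕ), a.length = u.length → j < u.length →
    par c a (u.modify j not) = (a.getD j false ^^ par c a u)
  | [], u, j, h, hj => by rw [← h] at hj; simp at hj
  | p :: a, [], j, h, _ => by simp at h
  | p :: a, q :: u, 0, _, _ => by
    unfold par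
    simp only [List.modify_zero_cons, List.zip_cons_cons, List.foldr_cons, List.getD_cons_zero]
    generalize (a.zip u).foldr (fun p s => (p.1 && p.2) ^^ s) c = A
    cases p <;> cases q <;> cases A <;> rfl
  | p :: a, q :: u, j + 1, h, hj => by
    have ih := par_flip c a u j (by simpa using h) (by simpa using hj)
    unfold par at ih ⊢
    simp only [List.modify_succ_cons, List.zip_cons_cons, List.foldr_cons, List.getD_cons_succ]
    rw [ih]
    generalize (a.zip u).foldr (fun p s => (p.1 && p.2) ^^ s) c = A
    generalize a.getD j false = C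
    cases p <;> cases q <;> cases A <;> cases C <;> rfl

theorem par_zero (c : Bool) (a : List Bool) (k : ℕ) : par c a (List.replicate k false) = c := by
  induction a generalizing k with
  | nil => simp [par]
  | cons p a ih =>
    cases k with
    | zero => simp [par]
    | succ k =>
      have := ih k
      unfold par at this ⊢
      rw [List.replicate_succ, List.zip_cons_cons, List.foldr_cons, this]
      simp

theorem nonaffine {f : Fn} (h : ¬ ∃ (c : Bool) (a : List Bool), ∀ u : List Bool,
    u.length = f.1 → f.val u = par c a u) :
    ∃ (w : List Bool) (i j : ℕ), w.length = f.1 ∧ i < f.1 ∧ j < f.1 ∧ i ≠ j ∧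
      (f.val ((w.modify j not).modify i not) ^^ f.val (w.modify j not)) ≠
        (f.val (w.modify i not) ^^ f.val w) := by
  by_contra hcon
  push Not at hcon
  apply h
  -- the first differences are constant
  have hD : ∀ i < f.1, ∀ w : List Bool, w.length = f.1 → (f.val (w.modify i not) ^^ f.val w) =
      (f.val ((List.replicate f.1 false).modify i not) ^^ f.val (List.replicate f.1 false)) := by
    intro i hi
    refine reach_flips _ rfl fun w hw j hj hQ => ?_
    rw [← hQ]
    by_cases hij : i = j
    · subst hij
      rw [modify_modify]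
      cases f.val w <;> cases f.val (w.modify i not) <;> rfl
    · exact hcon w i j hw hi hj hij
  refine ⟨f.val (List.replicate f.1 false), (List.range f.1).map fun i =>
    (f.val ((List.replicate f.1 false).modify i not) ^^ f.val (List.replicate f.1 false)), ?_⟩
  refine reach_flips _ (par_zero _ _ _).symm fun w hw j hj hQ => ?_
  rw [par_flip _ _ _ _ (by simp [hw]) (by omega), ← hQ,
    getD_map_lt _ _ (by simpa using hj) 0, List.getD_eq_getElem _ _ (by simpa using hj),
    List.getElem_range, ← hD j hj w hw]
  cases f.val w <;> cases f.val (w.modify j not) <;> rfl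

/-! ### Functions of two arguments, with a constant zero -/

/-- `G` is computed by circuits over `B` with a third input which is zero -/
def E (B : Basis) (G : Bool → Bool → Bool) : Prop :=
  ∃ F, Clo B 3 F ∧ ∀ a b, F [a, b, false] = G a b

theorem E_app {f : ℕ} (hf : f < B.length) (Gs : List (Bool → Bool → Bool))
    (hl : Gs.length = (B.getD f (0, [])).1) (h : ∀ G ∈ Gs, E B G) :
    E B (fun a b => (B.getD f (0, [])).val (Gs.map fun G => G a b)) := by
  have key : ∀ Gs : List (Bool → Bool → Bool), (∀ G ∈ Gs, E B G) →
      ∃ Fs : List (List Bool → Bool), Fs.length = Gs.length ∧ (∀ F ∈ Fs, Clo B 3 F) ∧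
        ∀ a b, (Fs.map fun F => F [a, b, false]) = Gs.map fun G => G a b := by
    intro Gs
    induction Gs with
    | nil => intro _; exact ⟨[], rfl, by simp, by simp⟩
    | cons G Gs ih =>
      intro h
      obtain ⟨F, hF1, hF2⟩ := h G List.mem_cons_self
      obtain ⟨Fs, h1, h2, h3⟩ := ih fun G hG => h G (List.mem_cons_of_mem _ hG)
      refine ⟨F :: Fs, by simp [h1], ?_, fun a b => by simp [hF2, h3]⟩
      intro F' hF'
      rcases List.mem_cons.1 hF' with rfl | hF'
      · exact hF1
      · exact h2 F' hF'
  obtain ⟨Fs, h1, h2, h3⟩ := key Gs h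
  exact ⟨_, Clo.app f Fs hf (by rw [h1, hl]) h2, fun a b => by rw [h3]⟩

theorem E_fst : E B (fun a _ => a) := ⟨_, Clo.var 0 (by omega), fun _ _ => rfl⟩
theorem E_snd : E B (fun _ b => b) := ⟨_, Clo.var 1 (by omega), fun _ _ => rfl⟩
theorem E_zero : E B (fun _ _ => false) := ⟨_, Clo.var 2 (by omega), fun _ _ => rfl⟩

/-- the number of a function in the list -/
theorem exists_idx {f : Fn} (hf : f ∈ B) : ∃ i < B.length, B.getD i (0, []) = f := by
  obtain ⟨i, hi, h⟩ := List.getElem_of_mem hf
  exact ⟨i, hi, by rw [List.getD_eq_getElem _ _ hi, h]⟩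

theorem E_one (h : ¬ B.Zero) : E B (fun _ _ => true) := by
  unfold Basis.Zero at h
  push Not at h
  obtain ⟨f, hf, hv⟩ := h
  obtain ⟨i, hi, rfl⟩ := exists_idx hf
  have := E_app hi (List.replicate (B.getD i (0, [])).1 fun _ _ => false) (by simp) (by
    intro G hG
    rw [List.eq_of_mem_replicate hG]
    exact E_zero)
  refine (congrArg (E B) ?_).mp this
  funext a b
  rw [List.map_replicate]
  simpa using hv

theorem E_const (h : ¬ B.Zero) (c : Bool) : E B (fun _ _ => c) := by
  cases c
  · exact E_zero
  · exact E_one h

theorem E_not (h : ¬ B.Zero) (hm : ¬ B.Mono) {G : Bool → Bool → Bool} (hG : E B G) :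
    E B (fun a b => !(G a b)) := by
  unfold Basis.Mono at hm
  push Not at hm
  obtain ⟨f, hf, u, v, hu, hv, huv, h1, h2⟩ := hm
  obtain ⟨w, j, hw, h3, h4⟩ := nonmono hu hv huv h1 (by simpa using h2)
  obtain ⟨i, hi, rfl⟩ := exists_idx hf
  have := E_app hi ((List.range w.length).map fun l => if l = j then G else
    fun _ _ => w.getD l false) (by simp [hw]) (by
    intro G' hG'
    obtain ⟨l, _, rfl⟩ := List.mem_map.1 hG'
    split_ifs
    · exact hG
    · exact E_const h _)
  refine (congrArg (E B) ?_).mp this
  funext a b
  rw [List.map_map]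
  have e : (List.range w.length).map ((fun G => G a b) ∘ fun l => if l = j then G else
      fun _ _ => w.getD l false) = rep w j (G a b) := by
    unfold rep
    refine List.map_congr_left fun l _ => ?_
    simp only [Function.comp_apply]
    split_ifs <;> rfl
  rw [e]
  cases G a b
  · rw [h3]; rfl
  · rw [h4]; rfl

theorem E_xor (h : ¬ B.Zero) (hm : ¬ B.Mono) {G : Bool → Bool → Bool} (hG : E B G) (c : Bool) :
    E B (fun a b => (c ^^ G a b)) := by
  cases c
  · refine (congrArg (E B) ?_).mp hG
    funext a b
    simp
  · refine (congrArg (E B) ?_).mp (E_not h hm hG)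
    funext a b
    simp

theorem two_key : ∀ r00 r01 r10 r11 : Bool, (r11 ^^ r01) ≠ (r10 ^^ r00) →
    ∃ σ τ ρ : Bool, ∀ a b : Bool, (!(a && b)) = (ρ ^^
      (cond (σ ^^ a) (cond (τ ^^ b) r11 r10) (cond (τ ^^ b) r01 r00))) := by
  decide

theorem E_nand (h : ¬ B.Zero) (hm : ¬ B.Mono) (ha : ¬ B.Affine) :
    E B (fun a b => !(a && b)) := by
  unfold Basis.Affine at ha
  push Not at ha
  obtain ⟨f, hf, hna⟩ := ha
  obtain ⟨w, i, j, hw, hi, hj, hij, hne⟩ := nonaffine (f := f) (by
    rintro ⟨c, a, hca⟩
    obtain ⟨u, hu, hu'⟩ := hna c a
    exact hu' (hca u hu))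
  obtain ⟨q, hq, rfl⟩ := exists_idx hf
  obtain ⟨f, hff⟩ : ∃ f, f = B.getD q (0, []) := ⟨_, rfl⟩
  rw [← hff] at hw hi hj hne
  -- the function of two arguments
  obtain ⟨R, hR⟩ : ∃ R : Bool → Bool → Bool, R = fun p p' =>
    f.val ((List.range w.length).map fun l => if l = i then p else if l = j then p' else
      w.getD l false) := ⟨_, rfl⟩
  have hval : ∀ p p' : Bool, R ((w.getD i false) ^^ p) ((w.getD j false) ^^ p') =
      f.val (cond p ((cond p' (w.modify j not) w).modify i not) (cond p' (w.modify j not) w)) := by
    intro p p'
    rw [hR]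
    simp only
    congr 1
    refine List.ext_getElem (by cases p <;> cases p' <;> simp) fun l h1 h2 => ?_
    have hl : l < w.length := by simpa using h1
    have hii : i < w.length := by omega
    have hjj : j < w.length := by omega
    rw [List.getElem_map, List.getElem_range]
    have g1 : ∀ y : List Bool, ∀ hy : l < y.length, y[l] = y.getD l false := fun y hy =>
      (List.getD_eq_getElem _ _ hy).symm
    rw [g1 _ h2]
    cases p <;> cases p' <;> simp only [cond_true, cond_false, Bool.xor_false, Bool.xor_true]
    · split_ifs with h3 h4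
      · rw [h3]
      · rw [h4]
      · rfl
    · rw [getD_modify hjj]
      split_ifs with h3 h4 h5
      · omega
      · rw [h3]
      · rw [h5]
      · rfl
    · rw [getD_modify hii]
      split_ifs with h3 h4
      · rw [h3]
      · rw [h4]
      · rfl
    · rw [getD_modify (by simpa using hii), getD_modify hjj]
      split_ifs with h3 h4 h5
      · omega
      · rw [h3]
      · rw [h5]
      · rfl
  have hne' : (R ((w.getD i false) ^^ true) ((w.getD j false) ^^ true) ^^
      R ((w.getD i false) ^^ false) ((w.getD j false) ^^ true)) ≠
      (R ((w.getD i false) ^^ true) ((w.getD j false) ^^ false) ^^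
      R ((w.getD i false) ^^ false) ((w.getD j false) ^^ false)) := by
    rw [hval, hval, hval, hval]
    exact hne
  have hne2 : (R true true ^^ R false true) ≠ (R true false ^^ R false false) := by
    revert hne'
    cases w.getD i false <;> cases w.getD j false <;>
      simp only [Bool.xor_true, Bool.xor_false, Bool.not_false, Bool.not_true] <;>
      cases R true true <;> cases R false true <;> cases R true false <;>
      cases R false false <;> simp
  obtain ⟨σ, τ, ρ, hst⟩ := two_key _ _ _ _ hne2
  have hRc : ∀ p p', R p p' = cond p (cond p' (R true true) (R true false))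
      (cond p' (R false true) (R false false)) := by
    intro p p'
    cases p <;> cases p' <;> rfl
  -- the function
  have h1 := E_app hq ((List.range w.length).map fun l => if l = i then (fun a _ => (σ ^^ a)) else
    if l = j then (fun _ b => (τ ^^ b)) else fun _ _ => w.getD l false)
    (by rw [← hff]; simp [hw]) (by
    intro G' hG'
    obtain ⟨l, _, rfl⟩ := List.mem_map.1 hG'
    split_ifs
    · exact E_xor h hm E_fst σ
    · exact E_xor h hm E_snd τ
    · exact E_const h _)
  refine (congrArg (E B) ?_).mp (E_xor h hm h1 ρ)
  funext a b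
  rw [hst a b, ← hRc, hR, ← hff]
  simp only
  congr 2
  rw [List.map_map]
  refine List.map_congr_left fun l _ => ?_
  simp only [Function.comp_apply]
  split_ifs <;> rfl

/-- the program for NAND -/
theorem nand_prog (h : ¬ B.Zero) (hm : ¬ B.Mono) (ha : ¬ B.Affine) :
    ∃ (gs : List (ℕ × List ℕ)) (r : ℕ), VG B 3 gs ∧ r < gs.length ∧
      ∀ a b : Bool, (brun B gs [a, b, false]).getD (3 + r) false = !(a && b) := by
  obtain ⟨F, hF, hF'⟩ := E_nand h hm ha
  simp only at hF'
  obtain ⟨gs, r, h1, h2, h3⟩ := prog_of_clo hF [] vg_nil
  rw [List.nil_append] at h1 h2 h3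
  have hr : 3 ≤ r := by
    by_contra hr
    have key : ∀ a b : Bool, [a, b, false].getD r false = !(a && b) := by
      intro a b
      rw [← hF', ← h3 _ rfl, brun_getD_lt (by simpa using hr)]
    have k1 := key true true
    have k2 := key false false
    have k3 := key true false
    have k4 := key false true
    have : r = 0 ∨ r = 1 ∨ r = 2 := by omega
    rcases this with rfl | rfl | rfl
    · simp at k1
    · simp at k1
    · simp at k2
  refine ⟨gs, r - 3, h1, by omega, fun a b => ?_⟩
  rw [show 3 + (r - 3) = r by omega, h3 _ rfl, hF']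

/-! ### The identity -/

/-- `G` is computed by circuits with one input -/
def E1 (B : Basis) (G : Bool → Bool) : Prop := ∃ F, Clo B 1 F ∧ ∀ z, F [z] = G z

theorem E1_lists (Gs : List (Bool → Bool)) (h : ∀ G ∈ Gs, E1 B G) :
    ∃ Fs : List (List Bool → Bool), Fs.length = Gs.length ∧ (∀ F ∈ Fs, Clo B 1 F) ∧
      ∀ z, (Fs.map fun F => F [z]) = Gs.map fun G => G z := by
  induction Gs with
  | nil => exact ⟨[], rfl, by simp, by simp⟩
  | cons G Gs ih =>
    obtain ⟨F, hF1, hF2⟩ := h G List.mem_cons_self
    obtain ⟨Fs, h1, h2, h3⟩ := ih fun G hG => h G (List.mem_cons_of_mem _ hG)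
    refine ⟨F :: Fs, by simp [h1], ?_, fun a => by simp [hF2, h3]⟩
    intro F' hF'
    rcases List.mem_cons.1 hF' with rfl | hF'
    · exact hF1
    · exact h2 F' hF'

theorem E1_app {f : ℕ} (hf : f < B.length) (Gs : List (Bool → Bool))
    (hl : Gs.length = (B.getD f (0, [])).1) (h : ∀ G ∈ Gs, E1 B G) :
    E1 B (fun z => (B.getD f (0, [])).val (Gs.map fun G => G z)) := by
  obtain ⟨Fs, h1, h2, h3⟩ := E1_lists Gs h
  exact ⟨_, Clo.app f Fs hf (by rw [h1, hl]) h2, fun a => by rw [h3]⟩

/-- the program of an application -/
theorem E1_prog {f : ℕ} (hf : f < B.length) (Gs : List (Bool → Bool))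
    (hl : Gs.length = (B.getD f (0, [])).1) (h : ∀ G ∈ Gs, E1 B G) :
    ∃ (gs : List (ℕ × List ℕ)) (r : ℕ), VG B 1 gs ∧ r < gs.length ∧
      ∀ z : Bool, (brun B gs [z]).getD (1 + r) false =
        (B.getD f (0, [])).val (Gs.map fun G => G z) := by
  obtain ⟨Fs, h1, h2, h3⟩ := E1_lists Gs h
  obtain ⟨gs, r, i1, i2, i3, i4⟩ := prog_app hf (by rw [h1, hl])
    (fun F hF => prog_of_clo (h2 F hF)) [] (vg_nil (k := 1))
  rw [List.nil_append] at i1 i3 i4
  refine ⟨gs, r - 1, i1, by omega, fun z => ?_⟩
  rw [show 1 + (r - 1) = r by omega, i4 _ rfl, h3]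

theorem E1_id : E1 B (fun z => z) := ⟨_, Clo.var 0 (by omega), fun _ => rfl⟩

theorem map_if_const {w : List Bool} {j : ℕ} {G : Bool → Bool} {z : Bool} :
    ((List.range w.length).map fun l => if l = j then G else fun _ => w.getD l false).map
      (fun G => G z) = rep w j (G z) := by
  unfold rep
  rw [List.map_map]
  refine List.map_congr_left fun l _ => ?_
  simp only [Function.comp_apply]
  split_ifs <;> rfl

/-- The identity is computed by a circuit over `B` with at least one gate. -/
theorem id_prog (h : ¬ B.Zero) (hm : ¬ B.Mono) :
    ∃ (gs : List (ℕ × List ℕ)) (r : ℕ), VG B 1 gs ∧ r < gs.length ∧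
      ∀ z : Bool, (brun B gs [z]).getD (1 + r) false = z := by
  unfold Basis.Zero at h
  push Not at h
  obtain ⟨f, hf, hv⟩ := h
  have hv : f.val (List.replicate f.1 false) = true := by simpa using hv
  unfold Basis.Mono at hm
  push Not at hm
  obtain ⟨g, hg, u, v, hu, hv', huv, h1, h2⟩ := hm
  have h2 : g.val v = false := by simpa using h2
  obtain ⟨fi, hfi, rfl⟩ := exists_idx hf
  obtain ⟨gi, hgi, rfl⟩ := exists_idx hg
  obtain ⟨f, hff⟩ : ∃ f, f = B.getD fi (0, []) := ⟨_, rfl⟩
  obtain ⟨g, hgg⟩ : ∃ g, g = B.getD gi (0, []) := ⟨_, rfl⟩
  rw [← hff] at hv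
  rw [← hgg] at hu hv' h1 h2
  -- a reformulation
  have fin : ∀ (q : ℕ) (hq : q < B.length) (Gs : List (Bool → Bool)),
      Gs.length = (B.getD q (0, [])).1 → (∀ G ∈ Gs, E1 B G) →
      (∀ z, (B.getD q (0, [])).val (Gs.map fun G => G z) = z) →
      ∃ (gs : List (ℕ × List ℕ)) (r : ℕ), VG B 1 gs ∧ r < gs.length ∧
      ∀ z : Bool, (brun B gs [z]).getD (1 + r) false = z := by
    intro q hq Gs hl hG hval
    obtain ⟨gs, r, i1, i2, i3⟩ := E1_prog hq Gs hl hG
    exact ⟨gs, r, i1, i2, fun z => by rw [i3, hval]⟩
  have frep : ∀ z : Bool, (B.getD fi (0, [])).val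
      ((List.replicate f.1 (fun z : Bool => z)).map fun G => G z) =
      f.val (List.replicate f.1 z) := by
    intro z
    rw [List.map_replicate, ← hff]
  cases hone : f.val (List.replicate f.1 true)
  · -- `f` gives the negation
    have hnot : E1 B (fun z => !z) := by
      have := E1_app hfi (List.replicate f.1 (fun z : Bool => z)) (by rw [← hff]; simp) (by
        intro G hG
        rw [List.eq_of_mem_replicate hG]
        exact E1_id)
      refine (congrArg (E1 B) ?_).mp this
      funext z
      rw [frep]
      cases z
      · rw [hv]; rfl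
      · rw [hone]; rfl
    refine fin fi hfi (List.replicate f.1 (fun z : Bool => !z)) (by rw [← hff]; simp) (by
      intro G hG
      rw [List.eq_of_mem_replicate hG]
      exact hnot) fun z => ?_
    rw [List.map_replicate, ← hff]
    cases z
    · exact hone
    · exact hv
  · -- the constant one
    have hc1 : E1 B (fun _ => true) := by
      have := E1_app hfi (List.replicate f.1 (fun z : Bool => z)) (by rw [← hff]; simp) (by
        intro G hG
        rw [List.eq_of_mem_replicate hG]
        exact E1_id)
      refine (congrArg (E1 B) ?_).mp this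
      funext z
      rw [frep]
      cases z
      · exact hv
      · exact hone
    cases hg1 : g.val (List.replicate g.1 true)
    · -- the constant zero
      have hc0 : E1 B (fun _ => false) := by
        have := E1_app hgi (List.replicate g.1 (fun _ : Bool => true)) (by rw [← hgg]; simp) (by
          intro G hG
          rw [List.eq_of_mem_replicate hG]
          exact hc1)
        refine (congrArg (E1 B) ?_).mp this
        funext z
        rw [List.map_replicate, ← hgg]
        exact hg1
      have hc : ∀ c : Bool, E1 B (fun _ => c) := by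
        intro c
        cases c
        · exact hc0
        · exact hc1
      obtain ⟨w, j, hw, h3, h4⟩ := nonmono hu hv' huv h1 h2
      have hE : ∀ G, E1 B G → ∀ G' ∈ ((List.range w.length).map fun l => if l = j then G else
          fun _ => w.getD l false), E1 B G' := by
        intro G hG G' hG'
        obtain ⟨l, _, rfl⟩ := List.mem_map.1 hG'
        split_ifs
        · exact hG
        · exact hc _
      have hnot : E1 B (fun z => !z) := by
        have := E1_app hgi ((List.range w.length).map fun l => if l = j then (fun z : Bool => z) else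
          fun _ => w.getD l false) (by rw [← hgg]; simp [hw]) (hE _ E1_id)
        refine (congrArg (E1 B) ?_).mp this
        funext z
        rw [map_if_const, ← hgg]
        cases z
        · rw [h3]; rfl
        · rw [h4]; rfl
      refine fin gi hgi ((List.range w.length).map fun l => if l = j then (fun z : Bool => !z) else
          fun _ => w.getD l false) (by rw [← hgg]; simp [hw]) (hE _ hnot) fun z => ?_
      rw [map_if_const, ← hgg]
      cases z
      · exact h4
      · exact h3
    · refine fin gi hgi ((List.range v.length).map fun l => if v.getD l false = true then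
        (fun _ : Bool => true) else fun z => z) (by rw [← hgg]; simp [hv']) ?_ fun z => ?_
      · intro G hG
        obtain ⟨l, _, rfl⟩ := List.mem_map.1 hG
        split_ifs
        · exact hc1
        · exact E1_id
      · rw [List.map_map, ← hgg]
        cases z
        · have e : (List.range v.length).map ((fun G : Bool → Bool => G false) ∘ fun l =>
              if v.getD l false = true then (fun _ : Bool => true) else fun z => z) = v := by
            refine List.ext_getElem (by simp) fun l h3 h4 => ?_
            rw [List.getElem_map, List.getElem_range, ← List.getD_eq_getElem _ false h4]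
            simp only [Function.comp_apply]
            split_ifs with h5
            · exact h5.symm
            · simpa using h5
          rw [e]
          exact h2
        · have e : (List.range v.length).map ((fun G : Bool → Bool => G true) ∘ fun l =>
              if v.getD l false = true then (fun _ : Bool => true) else fun z => z) =
              List.replicate g.1 true := by
            rw [List.eq_replicate_iff]
            refine ⟨by simp [hv'], fun b hb => ?_⟩
            obtain ⟨l, _, rfl⟩ := List.mem_map.1 hb
            simp only [Function.comp_apply]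
            split_ifs <;> rfl
          rw [e]
          exact hg1

end Pool.Agent.Helper80K5
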